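import Pool.Agent.Helper38.DG.AdvTools
import Pool.Agent.Helper38.DG.Div

/-!
# Rudimentary with advice: relations, composition, division
-/

set_option autoImplicit false

namespace Pool.Agent.Helper14.GC

open FirstOrder FirstOrder.Language Pool.Agent.Helper20.Spectra Pool.Agent.Helper38.DG
open Pool.Agent.Helper12.SS Pool.Agent.Helper38.DG.AdvT
open scoped Classical

/-- The relation `E` is rudimentary with advice of linear length: there are a rudimentary ternary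
relation `R` and a number `c` such that for every `N ≥ 1` there is a number `a ≤ (N + 1) ^ c` with:
for all `n` with `N ≤ n < 2 * N` and all `i`, `E n i` iff `R n i a`. -/
def RudAdv2 (E : ℕ → ℕ → Prop) : Prop :=
  ∃ (R : Set (Fin 3 → ℕ)) (c : ℕ), Rud 3 R ∧ ∀ N, 1 ≤ N → ∃ a, a ≤ (N + 1) ^ c ∧
    ∀ n, N ≤ n → n < 2 * N → ∀ i, (E n i ↔ ![n, i, a] ∈ R)

/-- longer windows -/
theorem win2 {E : ℕ → ℕ → Prop} (hE : RudAdv2 E) (j : ℕ) :
    ∃ (R : Set (Fin 3 → ℕ)) (c : ℕ), Rud 3 R ∧ ∀ N, 1 ≤ N → ∃ a, a ≤ (N + 1) ^ c ∧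
      ∀ n, N ≤ n → n < 2 ^ (j + 1) * N → ∀ i, (E n i ↔ ![n, i, a] ∈ R) := by
  obtain ⟨R, c, hR, hA⟩ := hE
  have hP : RP (j + 1 + 1) 2 (fun v w => ∃ i : Fin (j + 1), 2 ^ (i : ℕ) * v 0 ≤ w 0 ∧
      w 0 < 2 ^ ((i : ℕ) + 1) * v 0 ∧ ![w 0, w 1, v i.succ] ∈ R) := by
    intro l s t hs ht
    refine RudX.ex_fin (fun i => RudX.and' ?_ (RudX.and' ?_ ?_))
    · exact RudX.le ((Helper20.Spectra.IsPoly.const _).mul (hs 0)) (ht 0)
    · exact RudX.lt (ht 0) ((Helper20.Spectra.IsPoly.const _).mul (hs 0))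
    · have h1 : RudX nA 3 (fun _ v => v ∈ R) := RudX.ofRud hR
      refine (h1.subst l ![t 0, t 1, s i.succ] ?_).congr (fun X v => ?_)
      · intro i'
        fin_cases i'
        · exact ht 0
        · exact ht 1
        · exact hs i.succ
      · refine Iff.of_eq (congrArg (fun w => w ∈ R) ?_)
        funext i'
        fin_cases i' <;> rfl
  have h1 := RP.decode (j + 1 + 1) 2 _ hP 3 (fun z => z 2) (fun i z => ![z 0, z 1] i)
    (Helper20.Spectra.IsPoly.var 2) (fun i => by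
      fin_cases i
      · exact Helper20.Spectra.IsPoly.var 0
      · exact Helper20.Spectra.IsPoly.var 1)
  obtain ⟨c', hc'⟩ := code_bound (c * (j + 1) + 1) (j + 1 + 1)
  refine ⟨_, c', h1.toRud, fun N hN => ?_⟩
  choose a ha h2 using fun i : ℕ => hA (2 ^ i * N) (Nat.mul_pos (by positivity) hN)
  refine ⟨code (j + 1 + 1) (Fin.cons N (fun i : Fin (j + 1) => a i)), ?_,
    fun n hn1 hn2 k => ?_⟩
  · refine hc' (N + 1) (by omega) _ (fun i => ?_)
    refine Fin.cases ?_ (fun i => ?_) i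
    · rw [Fin.cons_zero]
      calc N ≤ (N + 1) ^ 1 := by rw [pow_one]; omega
        _ ≤ (N + 1) ^ (c * (j + 1) + 1) := Nat.pow_le_pow_right (by omega) (by omega)
    · rw [Fin.cons_succ]
      have h3 : 2 ^ (i : ℕ) * N + 1 ≤ (N + 1) ^ (j + 1) := by
        calc 2 ^ (i : ℕ) * N + 1 ≤ 2 ^ (i : ℕ) * (N + 1) := by
              have : 1 ≤ 2 ^ (i : ℕ) := Nat.one_le_two_pow
              rw [Nat.mul_add, Nat.mul_one]
              omega
          _ ≤ (N + 1) ^ (i : ℕ) * (N + 1) :=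
              Nat.mul_le_mul_right _ (Nat.pow_le_pow_left (by omega) _)
          _ = (N + 1) ^ ((i : ℕ) + 1) := by rw [pow_succ]
          _ ≤ (N + 1) ^ (j + 1) := Nat.pow_le_pow_right (by omega) (by have := i.2; omega)
      calc a i ≤ (2 ^ (i : ℕ) * N + 1) ^ c := ha i
        _ ≤ ((N + 1) ^ (j + 1)) ^ c := Nat.pow_le_pow_left h3 c
        _ = (N + 1) ^ (c * (j + 1)) := by rw [← pow_mul]; ring_nf
        _ ≤ (N + 1) ^ (c * (j + 1) + 1) := Nat.pow_le_pow_right (by omega) (by omega)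
  · show E n k ↔ ∃ v : Fin (j + 1 + 1) → ℕ, code (j + 1 + 1) v =
      code (j + 1 + 1) (Fin.cons N (fun i : Fin (j + 1) => a i)) ∧
      ∃ i : Fin (j + 1), 2 ^ (i : ℕ) * v 0 ≤ n ∧ n < 2 ^ ((i : ℕ) + 1) * v 0 ∧
        ![n, k, v i.succ] ∈ R
    constructor
    · intro hn
      have hN0 : N ≠ 0 := by omega
      have h3 : 1 ≤ n / N := (Nat.one_le_div_iff hN).2 hn1
      have h4 : n / N < 2 ^ (j + 1) := (Nat.div_lt_iff_lt_mul hN).2 hn2
      have h5 : Nat.log 2 (n / N) < j + 1 := Nat.log_lt_of_lt_pow (by omega) h4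
      have h6 : 2 ^ Nat.log 2 (n / N) ≤ n / N := Nat.pow_log_le_self 2 (by omega)
      have h7 : n / N < 2 ^ (Nat.log 2 (n / N) + 1) := Nat.lt_pow_succ_log_self (by norm_num) _
      have h8 : 2 ^ Nat.log 2 (n / N) * N ≤ n := (Nat.le_div_iff_mul_le hN).1 h6
      have h9 : n < 2 ^ (Nat.log 2 (n / N) + 1) * N := (Nat.div_lt_iff_lt_mul hN).1 h7
      refine ⟨_, rfl, ⟨Nat.log 2 (n / N), h5⟩, h8, h9, ?_⟩
      rw [Fin.cons_succ]
      refine (h2 _ n h8 ?_ k).1 hn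
      rw [pow_succ] at h9
      calc n < 2 ^ Nat.log 2 (n / N) * 2 * N := h9
        _ = 2 * (2 ^ Nat.log 2 (n / N) * N) := by ring
    · rintro ⟨v, h3, i, h4, h5, h6⟩
      have h7 := code_inj _ _ _ h3
      rw [h7] at h4 h5 h6
      rw [Fin.cons_zero] at h4 h5
      rw [Fin.cons_succ] at h6
      refine (h2 _ n h4 ?_ k).2 h6
      rw [pow_succ] at h5
      calc n < 2 ^ (i : ℕ) * 2 * N := h5
        _ = 2 * (2 ^ (i : ℕ) * N) := by ring

/-- the first argument is the value of a polynomial -/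
theorem pre2 {E : ℕ → ℕ → Prop} (hE : RudAdv2 E) (q : Polynomial ℕ) (hq : q ≠ 0) :
    ∃ (R : Set (Fin 3 → ℕ)) (c : ℕ), Rud 3 R ∧ ∀ N, 1 ≤ N → ∃ a, a ≤ (N + 1) ^ c ∧
      ∀ n, N ≤ n → n < 2 * N → ∀ i, (E (q.eval n) i ↔ ![q.eval n, i, a] ∈ R) := by
  obtain ⟨R, c, hR, hW⟩ := win2 hE q.natDegree
  refine ⟨R, (q.eval 1 + q.natDegree + 1) * c, hR, fun N hN => ?_⟩
  obtain ⟨a, ha, h2⟩ := hW (q.eval N) (eval_pos hq hN)
  refine ⟨a, ha.trans ?_, fun n hn1 hn2 i => ?_⟩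
  · rw [pow_mul]
    refine Nat.pow_le_pow_left ?_ c
    have h3 := eval_le q hN
    calc q.eval N + 1 ≤ q.eval 1 * N ^ q.natDegree + 1 := by omega
      _ ≤ q.eval 1 * (N + 1) ^ q.natDegree + (N + 1) ^ q.natDegree :=
          Nat.add_le_add (Nat.mul_le_mul_left _ (Nat.pow_le_pow_left (by omega) _))
            (Nat.one_le_pow _ _ (by omega))
      _ = (q.eval 1 + 1) * (N + 1) ^ q.natDegree := by ring
      _ ≤ 2 ^ (q.eval 1 + 1) * (N + 1) ^ q.natDegree :=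
          Nat.mul_le_mul_right _ Nat.lt_two_pow_self.le
      _ ≤ (N + 1) ^ (q.eval 1 + 1) * (N + 1) ^ q.natDegree :=
          Nat.mul_le_mul_right _ (Nat.pow_le_pow_left (by omega) _)
      _ = (N + 1) ^ (q.eval 1 + q.natDegree + 1) := by rw [← pow_add]; ring_nf
  · refine h2 _ (eval_mono q hn1) ?_ i
    calc q.eval n ≤ q.eval (2 * N) := eval_mono q hn2.le
      _ ≤ 2 ^ q.natDegree * q.eval N := eval_two_mul q N
      _ < 2 ^ (q.natDegree + 1) * q.eval N := by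
          have := eval_pos hq hN
          have h5 : 0 < 2 ^ q.natDegree * q.eval N := Nat.mul_pos (by positivity) this
          rw [pow_succ]
          calc 2 ^ q.natDegree * q.eval N < 2 ^ q.natDegree * q.eval N +
                2 ^ q.natDegree * q.eval N := by omega
            _ = 2 ^ q.natDegree * 2 * q.eval N := by ring

/-- two advices -/
theorem advComp {B : Set ℕ} (hB : RudAdv B) {D : Set ℕ} {c : ℕ}
    (h : ∀ N, 1 ≤ N → ∃ a, a ≤ (N + 1) ^ c ∧ ∀ n, N ≤ n → n < 2 * N →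
      (n ∈ D ↔ (n + a) ^ 2 + n ∈ B)) : RudAdv D := by
  obtain ⟨E, c', hE, hW⟩ := advWin B hB 1
  have hP : RP 2 1 (fun v w => ((w 0 + v 0) ^ 2 + w 0 + v 1) ^ 2 + ((w 0 + v 0) ^ 2 + w 0) ∈ E) := by
    intro l s t hs ht
    have h1 := (((ht 0).add (hs 0)).pow 2).add (ht 0)
    exact RudX.mem hE (((h1.add (hs 1)).pow 2).add h1)
  have h1 := RP.decode 2 1 _ hP 2 (fun z => z 1) (fun _ z => z 0)
    (Helper20.Spectra.IsPoly.var 1) (fun _ => Helper20.Spectra.IsPoly.var 0)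
  obtain ⟨E', hE', h'⟩ := exists_pair (P := fun n a => ∃ v : Fin 2 → ℕ,
    code 2 v = a ∧ ((n + v 0) ^ 2 + n + v 1) ^ 2 + ((n + v 0) ^ 2 + n) ∈ E) h1
  obtain ⟨c'', hc''⟩ := code_bound (c + (2 * c + 4) * c') 2
  refine ⟨E', c'', hE', fun N hN => ?_⟩
  obtain ⟨a, ha, h2⟩ := h N hN
  obtain ⟨b, hb, h3⟩ := hW ((N + a) ^ 2 + N) (by omega)
  refine ⟨code 2 ![a, b], ?_, fun n hn1 hn2 => ?_⟩
  · refine hc'' (N + 1) (by omega) _ (fun i => ?_)
    fin_cases i
    · exact ha.trans (Nat.pow_le_pow_right (by omega) (by omega))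
    · show b ≤ _
      have h4 : (N + a) ^ 2 + N + 1 ≤ (N + 1) ^ (2 * c + 4) := by
        have h5 : N + a ≤ (N + 1) ^ (c + 1) := by
          rw [pow_succ]
          have h6 : 1 ≤ (N + 1) ^ c := Nat.one_le_pow _ _ (by omega)
          calc N + a ≤ (N + 1) ^ c * N + (N + 1) ^ c := by
                have : N ≤ (N + 1) ^ c * N := Nat.le_mul_of_pos_left _ h6
                omega
            _ = (N + 1) ^ c * (N + 1) := by ring
        have h7 : (N + a) ^ 2 ≤ (N + 1) ^ (2 * c + 2) := by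
          calc (N + a) ^ 2 ≤ ((N + 1) ^ (c + 1)) ^ 2 := Nat.pow_le_pow_left h5 2
            _ = (N + 1) ^ (2 * c + 2) := by rw [← pow_mul]; ring_nf
        have h8 : N + 1 ≤ (N + 1) ^ (2 * c + 2) := by
          calc N + 1 = (N + 1) ^ 1 := (pow_one _).symm
            _ ≤ _ := Nat.pow_le_pow_right (by omega) (by omega)
        calc (N + a) ^ 2 + N + 1 ≤ 2 * (N + 1) ^ (2 * c + 2) := by omega
          _ ≤ (N + 1) ^ 2 * (N + 1) ^ (2 * c + 2) := by
            refine Nat.mul_le_mul_right _ ?_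
            nlinarith
          _ = (N + 1) ^ (2 * c + 4) := by rw [← pow_add]; ring_nf
      calc b ≤ ((N + a) ^ 2 + N + 1) ^ c' := hb
        _ ≤ ((N + 1) ^ (2 * c + 4)) ^ c' := Nat.pow_le_pow_left h4 c'
        _ = (N + 1) ^ ((2 * c + 4) * c') := by rw [← pow_mul]
        _ ≤ _ := Nat.pow_le_pow_right (by omega) (by omega)
  · rw [h', h2 n hn1 hn2]
    have h4 : (N + a) ^ 2 + N ≤ (n + a) ^ 2 + n := by
      have : (N + a) ^ 2 ≤ (n + a) ^ 2 := Nat.pow_le_pow_left (by omega) 2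
      omega
    have h5 : (n + a) ^ 2 + n < 2 ^ (1 + 1) * ((N + a) ^ 2 + N) := by
      have h6 : (n + a) ^ 2 ≤ (2 * (N + a)) ^ 2 := Nat.pow_le_pow_left (by omega) 2
      have h7 : (2 * (N + a)) ^ 2 = 4 * (N + a) ^ 2 := by ring
      have h8 : (2 : ℕ) ^ (1 + 1) = 4 := by norm_num
      rw [h8]
      omega
    rw [h3 _ h4 h5]
    constructor
    · intro h6
      exact ⟨![a, b], rfl, h6⟩
    · rintro ⟨v, h6, h7⟩
      rw [code_inj _ _ _ h6] at h7
      exact h7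

end Pool.Agent.Helper14.GC
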