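import Pool.Agent.Helper38.DG.Div

/-!
# Digits of the number of graphs: division by a factorial
-/

set_option autoImplicit false

namespace Pool.Agent.Helper14.GC

open FirstOrder FirstOrder.Language Pool.Agent.Helper20.Spectra Pool.Agent.Helper38.DG
open scoped Classical

/-- GC2 -/
theorem division' (hQ : ∀ A : Set ℕ, IsSpectrum A → IsRudimentary A)
    {E : Set (Fin 2 → ℕ)} (hE : Rud 2 E) {N q : (Fin 1 → ℕ) → ℕ} (hN : IsPoly 1 N)
    (hq : IsPoly 1 q) (g : ℕ → ℕ) (n₀ : ℕ)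
    (h1 : ∀ n, n₀ ≤ n → ∀ i, (![n, i] ∈ E ↔ ((N (fun _ => n)).factorial * g n).testBit i = true))
    (h2 : ∀ n, n₀ ≤ n → (N (fun _ => n)).factorial * g n < 2 ^ q (fun _ => n)) :
    IsRudimentary {n : ℕ | n₀ ≤ n ∧ 1 ≤ n ∧ (g n).testBit (n ^ 3) = true} := by
  have h3 : ESO none0 1 (fun _ v => n₀ ≤ v 0 ∧ ∃ W : SOA dvA,
      DivCond E (N v) (q v) (v 0) W) := by
    refine ESO.and (ESO.of (RudX.le (pcD n₀) (IsPoly.var 0))) ?_
    have h4 : ESO (Sum.elim none0 dvA) 1 (fun Y v =>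
        DivCond E (N v) (q v) (v 0) (fun i => Y (Sum.inr i))) :=
      ESO.of (divCond_rudX hE hN hq (IsPoly.var 0))
    exact h4.exSO
  have h5 : ESO none0 1 (fun _ v => (fun m => n₀ ≤ m ∧ ∃ W : SOA dvA,
      DivCond E (N (fun _ => m)) (q (fun _ => m)) m W) (v 0)) := by
    refine h3.congr (fun X v => ?_)
    have hv : (fun _ => v 0) = v := by
      funext i
      rw [Subsingleton.elim i 0]
    show (n₀ ≤ v 0 ∧ ∃ W : SOA dvA, DivCond E (N (fun _ => v 0)) (q (fun _ => v 0)) (v 0) W) ↔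
      n₀ ≤ v 0 ∧ ∃ W : SOA dvA, DivCond E (N v) (q v) (v 0) W
    rw [hv]
  have h6 := hQ _ (ESO.isSpectrum (R := fun m => n₀ ≤ m ∧ ∃ W : SOA dvA,
      DivCond E (N (fun _ => m)) (q (fun _ => m)) m W) h5)
  convert h6 using 1
  ext n
  simp only [Set.mem_ofPred_eq]
  constructor
  · rintro ⟨hn, hn1, h7⟩
    exact ⟨hn1, hn, divCond_exists (h1 n hn) (h2 n hn) h7⟩
  · rintro ⟨hn1, hn, W, hW⟩
    exact ⟨hn, hn1, divCond_sound hW (h1 n hn) (h2 n hn)⟩

end Pool.Agent.Helper14.GC
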