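import Pool.Agent.Helper14.GC.Defs
import Pool.Agent.Helper38.DG.ModelsR
import Pool.Agent.Helper38.DG.Bridge
import Pool.Agent.Helper14.GC.Div2
import Pool.Agent.Helper29.EX.MonoMain

/-!
# Digits of the number of labelled graphs: the end of the proof
-/

set_option autoImplicit false

namespace Pool.Agent.Helper14.GC

open FirstOrder FirstOrder.Language Pool.Agent.Helper20.Spectra Pool.Agent.Helper38.DG
open Pool.Agent.Helper20.OP (Str binLang toStr Models)
open scoped Classical

/-! ### The bound -/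

lemma finite_graphs (n : ℕ) : Finite (SimpleGraph (Fin n)) := by
  refine Finite.of_injective (fun G : SimpleGraph (Fin n) => G.Adj) ?_
  intro G G' h
  exact SimpleGraph.ext h

/-- trivial bound -/
theorem numGraphs_lt (φ : Language.graph.Sentence) (n : ℕ) : numGraphs φ n < 2 ^ (n ^ 2 + 1) := by
  have hf := finite_graphs n
  have h1 : numGraphs φ n ≤ Nat.card (Fin n → Fin n → Prop) := by
    unfold numGraphs
    refine Nat.card_le_card_of_injective (fun G => G.1.Adj) ?_
    intro G G' h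
    exact Subtype.ext (SimpleGraph.ext h)
  have h2 : Nat.card (Fin n → Fin n → Prop) = 2 ^ n ^ 2 := by
    rw [Nat.card_pi, Finset.prod_const, Nat.card_pi, Finset.prod_const, Finset.card_univ,
      Fintype.card_fin, ← pow_mul, ← pow_two]
    congr 1
    rw [Nat.card_eq_fintype_card]
    simp
  rw [h2] at h1
  calc numGraphs φ n ≤ 2 ^ n ^ 2 := h1
    _ < 2 ^ (n ^ 2 + 1) := Nat.pow_lt_pow_right (by omega) (by omega)

/-- the polynomial bound for the digits -/
lemma numGraphs_ne_iff (φ : Language.graph.Sentence) (n : ℕ) :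
    numGraphs φ n ≠ 0 ↔ ∃ i, i ≤ n ^ 2 + 1 ∧ (numGraphs φ n).testBit i = true := by
  constructor
  · intro h
    obtain ⟨i, hi⟩ := Nat.exists_testBit_of_ne_zero h
    refine ⟨i, ?_, hi⟩
    by_contra hcon
    have h1 := Nat.testBit_lt_two_pow (x := numGraphs φ n) (i := i)
      ((numGraphs_lt φ n).trans_le (Nat.pow_le_pow_right (by omega) (by omega)))
    rw [h1] at hi
    exact absurd hi (by decide)
  · rintro ⟨i, -, hi⟩ h0
    rw [h0, Nat.zero_testBit] at hi
    exact absurd hi (by decide)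

/-! ### Sentences of graphs -/

/-- the translation of the vocabulary -/
def graphHom : (binLang 1) →ᴸ Language.graph where
  onFunction := fun _ f => Empty.elim f
  onRelation := fun n r => (r.2 : (2 : ℕ) = n) ▸ (Language.graphRel.adj : Language.graph.Relations 2)

/-- sentences on one binary relation and sentences of graphs -/
lemma graph_sentence (φ : (binLang 1).Sentence) : ∃ ψ : Language.graph.Sentence,
    ∀ (V : Type) (G : SimpleGraph V), @Sentence.Realize Language.graph V G.structure ψ ↔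
      Models (fun _ : Fin 1 => G.Adj) φ := by
  refine ⟨graphHom.onSentence φ, fun V G => ?_⟩
  let _ := G.structure
  let _ := toStr (fun _ : Fin 1 => G.Adj)
  have hexp : graphHom.IsExpansionOn V := by
    constructor
    · intro n f x
      exact Empty.elim f
    · intro n r x
      obtain ⟨s, hs⟩ := r
      subst hs
      rfl
  exact graphHom.realize_onSentence (M := V) φ

/-- the class of all graphs -/
def AllG (n : ℕ) (R : Str 1 (Fin n)) : Prop := Pool.Agent.Helper20.FS.Kind.graph.Is R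

lemma exists_universal_graph : ∃ φ : Language.graph.Sentence, ∀ A : Set ℕ, IsSpectrum A →
    ∃ h : Polynomial ℕ, A = {n : ℕ | 1 ≤ n ∧ (1 ≤ h.eval n ∧ numGraphs φ (h.eval n) ≠ 0)} := by
  have hK : Pool.Agent.Helper29.EX.DefBy AllG ⊤ := by
    intro n R
    refine ⟨fun h => ⟨h, ?_⟩, fun h => h.1⟩
    unfold Models
    let _ := toStr R
    exact BoundedFormula.realize_top.2 trivial
  have hM : Pool.Agent.Helper20.EX.Monotone AllG := fun _ _ _ _ _ h _ => h
  have hS : Pool.Agent.Helper29.EX.HasAll Pool.Agent.Helper20.FS.claws AllG := fun _ _ h _ => h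
  obtain ⟨⟨U, ⟨φ, hU⟩, hA⟩, -⟩ := Pool.Agent.Helper29.EX.mono_universal hK hM hS
  obtain ⟨ψ, hψ⟩ := graph_sentence φ
  refine ⟨ψ, fun A hSA => ?_⟩
  obtain ⟨h, rfl⟩ := (hA A).1 hSA
  refine ⟨h, ?_⟩
  ext n
  refine and_congr_right fun _ => ?_
  rw [hU]
  refine and_congr_right fun _ => ?_
  have hf := finite_graphs (h.eval n)
  unfold numGraphs
  rw [Nat.card_ne_zero]
  constructor
  · rintro ⟨R, hR, hRφ⟩
    let G : SimpleGraph (Fin (h.eval n)) :=
      { Adj := R 0
        symm := ⟨fun x y => hR.2 x y⟩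
        loopless := ⟨fun x => hR.1 x⟩ }
    have e : R = fun _ : Fin 1 => G.Adj := by
      funext r
      have : r = 0 := Subsingleton.elim _ _
      rw [this]
    refine ⟨⟨⟨G, (hψ _ G).2 ?_⟩⟩, inferInstance⟩
    rw [← e]
    exact hRφ
  · rintro ⟨⟨G, hG⟩, -⟩
    exact ⟨fun _ => G.Adj, ⟨fun x => G.irrefl, fun x y => G.symm.symm x y⟩, (hψ _ G).1 hG⟩

/-- if all digit relations are rudimentary then all spectra are -/
theorem graphDig_spec (h : GraphDig) (A : Set ℕ) (hA : IsSpectrum A) : IsRudimentary A := by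
  obtain ⟨φ, hφ⟩ := exists_universal_graph
  obtain ⟨q, rfl⟩ := hφ A hA
  have h1 : IsRudimentary {n : ℕ | 1 ≤ n ∧ numGraphs φ n ≠ 0} := by
    apply isRudimentary_of
    have x0 : IsPoly 1 (fun v => v 0) := Helper20.Spectra.IsPoly.var 0
    have n1 : IsPoly 2 (fun w => Fin.tail w 0) := Helper20.Spectra.IsPoly.var 1
    have s0 : IsPoly 2 (fun w => w 0) := Helper20.Spectra.IsPoly.var 0
    have h2 : RudX (fun x : Empty => x.elim) 1 (fun _ v => 1 ≤ v 0 ∧ ∃ i, i ≤ v 0 ^ 2 + 1 ∧
        (numGraphs φ (v 0)).testBit i = true) := by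
      refine RudX.and' (RudX.le (Helper20.Spectra.IsPoly.const 1) x0) (RudX.ex ((x0.pow 2).add (Helper20.Spectra.IsPoly.const 1)) ?_)
      exact (RudX.ofRud (h φ)).subst 2 ![fun w => Fin.tail w 0, fun w => w 0] (fun i => by
        fin_cases i
        · exact n1
        · exact s0)
    refine h2.congr fun _ v => ?_
    exact and_congr Iff.rfl (numGraphs_ne_iff φ (v 0))
  have h2 := h1.preimage q
  exact h2

/-! ### The end of the proof -/

/-- sets which differ from a rudimentary set in finitely many elements -/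
lemma rud_finite_mod {A B : Set ℕ} (hA : IsRudimentary A) (n₀ : ℕ)
    (h : ∀ n, n₀ ≤ n → (n ∈ A ↔ n ∈ B)) : IsRudimentary B := by
  apply isRudimentary_of
  have x0 : IsPoly 1 (fun v => v 0) := Helper20.Spectra.IsPoly.var 0
  have h1 : RudX (fun x : Empty => x.elim) 1 (fun _ v => (n₀ ≤ v 0 ∧ v 0 ∈ A) ∨
      ∃ i : Fin n₀, v 0 = (i : ℕ) ∧ (i : ℕ) ∈ B) := by
    refine RudX.or (RudX.and' (RudX.le (Helper20.Spectra.IsPoly.const _) x0) (RudX.mem hA x0)) ?_
    exact RudX.ex_fin fun i => RudX.and' (RudX.eq x0 (Helper20.Spectra.IsPoly.const _)) (RudX.const _)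
  refine h1.congr fun _ v => ?_
  constructor
  · intro hv
    rcases Nat.lt_or_ge (v 0) n₀ with hlt | hge
    · exact Or.inr ⟨⟨v 0, hlt⟩, rfl, hv⟩
    · exact Or.inl ⟨hge, (h _ hge).2 hv⟩
  · rintro (⟨h2, h3⟩ | ⟨i, h2, h3⟩)
    · exact (h _ h2).1 h3
    · rw [h2]; exact h3

/-- the final theorem from the coding in graphs and the digits of a counting function -/
theorem digitsGraph_of
    (hred : ∀ {S : Type} [Finite S] {ar : S → ℕ} (φ : (RelLang S ar).Sentence) (K : ℕ),
      1 ≤ K → (∀ s, ar s ≤ K) → ∃ (ψ : Language.graph.Sentence) (q : ℕ), ∀ n, q + 2 ≤ n →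
        numGraphs ψ (gN K q n) * n.factorial = (gN K q n).factorial * numModels φ n)
    (htoda : ∀ A : Set ℕ, RudS ll A →
      ∃ (G : SOA noV → (Fin 1 → ℕ) → ℕ) (n₀ : ℕ), Cn noV 1 G ∧ ∀ n, n₀ ≤ n →
        ((G nil (fun _ => n)).testBit (n ^ 3) = true ↔ n ∈ A))
    (hSS : (∀ A : Set ℕ, IsSpectrum A → IsRudimentary A) →
      ∃ D : Set ℕ, Pool.Agent.Helper14.SS.SetArith ll D ∧ ¬ IsRudimentary D) :
    ∃ φ : Language.graph.Sentence,
      ¬ Rud 2 {v : Fin 2 → ℕ | (numGraphs φ (v 0)).testBit (v 1) = true} := by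
  by_contra hcon
  push Not at hcon
  have hdig : GraphDig := hcon
  have hQ : ∀ A : Set ℕ, IsSpectrum A → IsRudimentary A := graphDig_spec hdig
  obtain ⟨D, hD, hDr⟩ := hSS hQ
  obtain ⟨G, n₀, hG, hGD⟩ := htoda D (setArith_rudS ll D hD)
  obtain ⟨S, hS, ar, φ, hφ⟩ := cn_modelsR hG
  obtain ⟨K, hK, hKS⟩ : ∃ K, 1 ≤ K ∧ ∀ s, ar s ≤ K := by
    have := Fintype.ofFinite S
    exact ⟨(∑ s, ar s) + 1, by omega, fun s =>
      (Finset.single_le_sum (f := ar) (fun _ _ => Nat.zero_le _) (Finset.mem_univ s)).trans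
        (Nat.le_succ _)⟩
  obtain ⟨ψ, q, hψ⟩ := hred φ K hK hKS
  have x0 : IsPoly 1 (fun v => v 0) := Helper20.Spectra.IsPoly.var 0
  have hN : IsPoly 1 (fun v => gN K q (v 0)) :=
    ((Helper20.Spectra.IsPoly.const (q + 1)).add (x0.add ((Helper20.Spectra.IsPoly.const q).mul (x0.pow K))))
  have hgraph : ∀ n, q + 2 ≤ n → numGraphs ψ (gN K q n) =
      (gN K q n).factorial * G nil (fun _ => n) := by
    intro n hn
    have h1 := hψ n hn
    rw [hφ n (by omega)] at h1
    have h2 : numGraphs ψ (gN K q n) * n.factorial =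
        ((gN K q n).factorial * G nil (fun _ => n)) * n.factorial := by
      rw [h1]
      ring
    exact Nat.eq_of_mul_eq_mul_right (Nat.factorial_pos n) h2
  have hE : Rud 2 {v : Fin 2 → ℕ | (numGraphs ψ (gN K q (v 0))).testBit (v 1) = true} := by
    have h1 : RudX (fun x : Empty => x.elim) 2
        (fun _ v => (numGraphs ψ (gN K q (v 0))).testBit (v 1) = true) := by
      refine (RudX.ofRud (hdig ψ)).subst 2 ![fun v => gN K q (v 0), fun v => v 1] (fun i => ?_)
      fin_cases i
      · exact ((Helper20.Spectra.IsPoly.const (q + 1)).add ((Helper20.Spectra.IsPoly.var 0).add ((Helper20.Spectra.IsPoly.const q).mul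
          ((Helper20.Spectra.IsPoly.var 0).pow K))))
      · exact Helper20.Spectra.IsPoly.var 1
    exact h1.toRud
  have hdiv := division' hQ hE hN (((hN.pow 2).add (Helper20.Spectra.IsPoly.const 1))) (fun n => G nil (fun _ => n))
    (q + 2) (fun n hn i => by
      show (numGraphs ψ (gN K q n)).testBit i = true ↔ _
      rw [hgraph n hn]) (fun n hn => by
      show (gN K q n).factorial * G nil (fun _ => n) < 2 ^ (gN K q n ^ 2 + 1)
      rw [← hgraph n hn]
      exact numGraphs_lt ψ _)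
  apply hDr
  refine rud_finite_mod hdiv (max (q + 2) n₀) fun n hn => ?_
  have h1 : q + 2 ≤ n := le_trans (le_max_left _ _) hn
  have h2 : n₀ ≤ n := le_trans (le_max_right _ _) hn
  constructor
  · rintro ⟨-, -, h3⟩
    exact (hGD n h2).1 h3
  · intro h3
    exact ⟨h1, by omega, (hGD n h2).2 h3⟩

end Pool.Agent.Helper14.GC
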