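import Pool.Agent.Helper14.GC.Defs
import Pool.Agent.Helper14.GC.RelatP
import Pool.Agent.Helper20.Spectra.TwoOrd

/-!
# Definability of the axioms of the code
-/

set_option autoImplicit false

namespace Pool.Agent.Helper14.GC

open FirstOrder FirstOrder.Language Pool.Agent.Helper20.Spectra Pool.Agent.Helper38.DG

variable {S : Type} {ar : S → ℕ} {K q : ℕ} {α : Type}

/-- uniformly definable, one binary relation -/
abbrev FG (α : Type) (P : ∀ (M : Type), Interp Unit (fun _ => 2) M → (α → M) → Prop) : Prop :=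
  FD Unit (fun _ => 2) α P

lemma fd_a {x y : ∀ (M : Type), (α → M) → M} (hx : El α x) (hy : El α y) :
    FG α (fun M R v => aR R (x M v) (y M v)) := by
  obtain ⟨a, ha⟩ := hx
  obtain ⟨b, hb⟩ := hy
  refine (FD.rel (S := Unit) (ar := fun _ => 2) () (f := fun M v => v ∘ ![a, b])
    ⟨![a, b], fun _ _ => rfl⟩).congr fun M R v => ?_
  show R () ![x M v, y M v] ↔ R () (v ∘ ![a, b])
  have : (![x M v, y M v] : Fin 2 → M) = v ∘ ![a, b] := by
    funext j
    rw [ha, hb]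
    fin_cases j <;> rfl
  rw [this]

section

variable {c : ∀ (M : Type), (α → M) → (Fin (q + 1) → M)} (hc : ∀ i, El α (fun M v => c M v i))

include hc

lemma fd_ty (j : Fin (q + 1)) {x : ∀ (M : Type), (α → M) → M} (hx : El α x) :
    FG α (fun M R v => Ty (aR R) (c M v) j (x M v)) :=
  FD.all_fin fun i => (fd_a (hc i) hx).iff (FD.const _)

lemma fd_co (p : Fin q ≃ Fin K ⊕ S) {w : ∀ (M : Type), (α → M) → M} (hw : El α w)
    {d : ∀ (M : Type), (α → M) → (Fin K → M)} (hd : ∀ i, El α (fun M v => d M v i)) :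
    FG α (fun M R v => Co p (aR R) (c M v) (w M v) (d M v)) :=
  FD.all_fin fun i => FD.ex1 <|
    (fd_ty (fun i => (hc i).inl) _ El.inr).and <|
    ((FD.eq El.inr hw.inl).or (fd_a El.inr hw.inl)).and (fd_a (hd i).inl El.inr)

lemma fd_cw (p : Fin q ≃ Fin K ⊕ S) (j : Fin q) {w : ∀ (M : Type), (α → M) → M} (hw : El α w)
    {d : ∀ (M : Type), (α → M) → (Fin K → M)} (hd : ∀ i, El α (fun M v => d M v i)) :
    FG α (fun M R v => Cw p (aR R) (c M v) j (w M v) (d M v)) :=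
  (fd_ty hc _ hw).and <| (FD.all_fin fun i => fd_ty hc _ (hd i)).and (fd_co hc p hw hd)

lemma fd_rho (hS : ∀ s, ar s ≤ K) (hK : 1 ≤ K) (p : Fin q ≃ Fin K ⊕ S) (s : S)
    {u : ∀ (M : Type), (α → M) → (Fin (ar s) → M)} (hu : ∀ i, El α (fun M v => u M v i)) :
    FG α (fun M R v => rho hS hK p (aR R) (c M v) s (u M v)) := by
  refine FD.ex1 <| FD.ex (β := Fin K) <| (fd_cw (fun i => (hc i).inl.inl) p _ El.inr.inl
    (fun i => El.var (Sum.inr i))).and <|
    (FD.all_fin fun j => FD.eq (El.var (Sum.inr (Fin.castLE (hS s) j))) (hu j).inl.inl).and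
    (fd_a (El.var (Sum.inr (⟨0, hK⟩ : Fin K))) El.inr.inl)

end

/-- the axioms, with the constants as parameters -/
theorem fd_axg [Finite S] (hS : ∀ s, ar s ≤ K) (hK : 1 ≤ K) (p : Fin q ≃ Fin K ⊕ S) :
    FD Unit (fun _ => 2) (Fin (q + 1)) (fun _ R c => AxG hS hK p (aR R) c) := by
  have c0 : ∀ i, El (Fin (q + 1)) (fun M v => v i) := fun i => El.var i
  have h1 : FG (Fin (q + 1)) (fun M R _ => ∀ u v : M, aR R u v → aR R v u) :=
    FD.all1 <| FD.all1 <| (fd_a El.inr.inl El.inr).imp (fd_a El.inr El.inr.inl)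
  have h2 : FG (Fin (q + 1)) (fun M R c => ∀ i j, c i = c j → i = j) :=
    FD.all_fin fun i => FD.all_fin fun j => (FD.eq (c0 i) (c0 j)).imp (FD.const _)
  have h3 : FG (Fin (q + 1)) (fun M R c => ∀ i j, ¬ aR R (c i) (c j)) :=
    FD.all_fin fun i => FD.all_fin fun j => (fd_a (c0 i) (c0 j)).not
  have h4 : FG (Fin (q + 1)) (fun M R c => ∀ v : M, (∃ i, v = c i) ∨ ∃ j, Ty (aR R) c j v) :=
    FD.all1 <| (FD.ex_fin fun i => FD.eq El.inr (c0 i).inl).or <|
      FD.ex_fin fun j => fd_ty (fun i => (c0 i).inl) _ El.inr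
  have h5 : FG (Fin (q + 1)) (fun M R c => ∀ a b : M, Ty (aR R) c 0 a → Ty (aR R) c 0 b →
      ¬ aR R a b) :=
    FD.all1 <| FD.all1 <| (fd_ty (fun i => (c0 i).inl.inl) _ El.inr.inl).imp <|
      (fd_ty (fun i => (c0 i).inl.inl) _ El.inr).imp (fd_a El.inr.inl El.inr).not
  have h6 : FG (Fin (q + 1)) (fun M R c => ∀ j, ∀ d : Fin K → M, (∀ i, Ty (aR R) c 0 (d i)) →
      ∃ w, Cw p (aR R) c j w d) :=
    FD.all_fin fun j => FD.all <| (FD.all_fin fun i => fd_ty (fun i => (c0 i).inl) _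
      (El.var (Sum.inr i))).imp <| FD.ex1 <| fd_cw (fun i => (c0 i).inl.inl) p _ El.inr
      (fun i => (El.var (Sum.inr i)).inl)
  have h7 : FG (Fin (q + 1)) (fun M R c => ∀ j, ∀ w : M, Ty (aR R) c (Fin.succ j) w →
      ∃ d, Cw p (aR R) c j w d) :=
    FD.all_fin fun j => FD.all1 <| (fd_ty (fun i => (c0 i).inl) _ El.inr).imp <|
      FD.ex (β := Fin K) <| fd_cw (fun i => (c0 i).inl.inl) p _ El.inr.inl
      (fun i => (El.var (Sum.inr i)))
  have h8 : FG (Fin (q + 1)) (fun M R c => ∀ j, ∀ w w' : M, ∀ d : Fin K → M,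
      Cw p (aR R) c j w d → Cw p (aR R) c j w' d → w = w') :=
    FD.all_fin fun j => FD.all1 <| FD.all1 <| FD.all <|
      (fd_cw (fun i => (c0 i).inl.inl.inl) p _ El.inr.inl.inl (fun i => El.var (Sum.inr i))).imp <|
      (fd_cw (fun i => (c0 i).inl.inl.inl) p _ El.inr.inl (fun i => El.var (Sum.inr i))).imp <|
      FD.eq El.inr.inl.inl El.inr.inl
  have h9 : FG (Fin (q + 1)) (fun M R c => ∀ j, ∀ w : M, ∀ d d' : Fin K → M,
      Cw p (aR R) c j w d → Cw p (aR R) c j w d' → ∀ i, d i = d' i) :=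
    FD.all_fin fun j => FD.all1 <| FD.all <| FD.all <|
      (fd_cw (fun i => (c0 i).inl.inl.inl) p _ El.inr.inl.inl
        (fun i => (El.var (Sum.inr i)).inl)).imp <|
      (fd_cw (fun i => (c0 i).inl.inl.inl) p _ El.inr.inl.inl (fun i => El.var (Sum.inr i))).imp <|
      FD.all_fin fun i => FD.eq (El.var (Sum.inr i)).inl (El.var (Sum.inr i))
  have h10 : FG (Fin (q + 1)) (fun M R c => ∀ j j', ∀ w w' : M, ∀ d d' : Fin K → M,
      Cw p (aR R) c j w d → Cw p (aR R) c j' w' d' → (aR R w w' ↔ ((∀ i, d i = d' i) ∧ j ≠ j'))) :=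
    FD.all_fin fun j => FD.all_fin fun j' => FD.all1 <| FD.all1 <| FD.all <| FD.all <|
      (fd_cw (fun i => (c0 i).inl.inl.inl.inl) p _ El.inr.inl.inl.inl
        (fun i => (El.var (Sum.inr i)).inl)).imp <|
      (fd_cw (fun i => (c0 i).inl.inl.inl.inl) p _ El.inr.inl.inl
        (fun i => El.var (Sum.inr i))).imp <|
      (fd_a El.inr.inl.inl.inl El.inr.inl.inl).iff <|
      (FD.all_fin fun i => FD.eq (El.var (Sum.inr i)).inl (El.var (Sum.inr i))).and (FD.const _)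
  have h11 : FG (Fin (q + 1)) (fun M R c => ∀ i : Fin K, ∀ w : M, ∀ d : Fin K → M, ∀ a : M,
      Cw p (aR R) c (p.symm (.inl i)) w d → Ty (aR R) c 0 a → (aR R a w ↔ a = d i)) :=
    FD.all_fin fun i => FD.all1 <| FD.all <| FD.all1 <|
      (fd_cw (fun i => (c0 i).inl.inl.inl) p _ El.inr.inl.inl
        (fun i => (El.var (Sum.inr i)).inl)).imp <|
      (fd_ty (fun i => (c0 i).inl.inl.inl) _ El.inr).imp <|
      (fd_a El.inr El.inr.inl.inl).iff (FD.eq El.inr (El.var (Sum.inr i)).inl)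
  have h12 : FG (Fin (q + 1)) (fun M R c => ∀ s : S, ∀ w : M, ∀ d : Fin K → M, ∀ a : M,
      Cw p (aR R) c (p.symm (.inr s)) w d → Ty (aR R) c 0 a → aR R a w → a = d ⟨0, hK⟩) :=
    FD.all_fin fun s => FD.all1 <| FD.all <| FD.all1 <|
      (fd_cw (fun i => (c0 i).inl.inl.inl) p _ El.inr.inl.inl
        (fun i => (El.var (Sum.inr i)).inl)).imp <|
      (fd_ty (fun i => (c0 i).inl.inl.inl) _ El.inr).imp <|
      (fd_a El.inr El.inr.inl.inl).imp (FD.eq El.inr (El.var (Sum.inr (⟨0, hK⟩ : Fin K))).inl)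
  have h13 : FG (Fin (q + 1)) (fun M R c => ∀ s : S, ∀ w w' : M, ∀ d d' : Fin K → M,
      Cw p (aR R) c (p.symm (.inr s)) w d → Cw p (aR R) c (p.symm (.inr s)) w' d' →
      (∀ j, d (Fin.castLE (hS s) j) = d' (Fin.castLE (hS s) j)) →
      aR R (d ⟨0, hK⟩) w → aR R (d' ⟨0, hK⟩) w') :=
    FD.all_fin fun s => FD.all1 <| FD.all1 <| FD.all <| FD.all <|
      (fd_cw (fun i => (c0 i).inl.inl.inl.inl) p _ El.inr.inl.inl.inl
        (fun i => (El.var (Sum.inr i)).inl)).imp <|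
      (fd_cw (fun i => (c0 i).inl.inl.inl.inl) p _ El.inr.inl.inl
        (fun i => El.var (Sum.inr i))).imp <|
      (FD.all_fin fun j => FD.eq (El.var (Sum.inr (Fin.castLE (hS s) j))).inl
        (El.var (Sum.inr (Fin.castLE (hS s) j)))).imp <|
      (fd_a (El.var (Sum.inr (⟨0, hK⟩ : Fin K))).inl El.inr.inl.inl.inl).imp
      (fd_a (El.var (Sum.inr (⟨0, hK⟩ : Fin K))) El.inr.inl.inl)
  refine (h1.and (h2.and (h3.and (h4.and (h5.and (h6.and (h7.and (h8.and (h9.and (h10.and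
    (h11.and (h12.and h13)))))))))))).congr fun M R c => ?_
  exact ⟨fun h => ⟨h.symm, h.cinj, h.cc, h.ty, h.ee, h.ex, h.co, h.un, h.ud, h.cl, h.inn, h.pr,
    h.dep⟩, fun ⟨a1, a2, a3, a4, a5, a6, a7, a8, a9, a10, a11, a12, a13⟩ =>
    ⟨a1, a2, a3, a4, a5, a6, a7, a8, a9, a10, a11, a12, a13⟩⟩

/-- the condition `P` relativised to the elements, with the constants as parameters -/
theorem fd_relP (hS : ∀ s, ar s ≤ K) (hK : 1 ≤ K) (p : Fin q ≃ Fin K ⊕ S)
    {P : ∀ (M : Type), Interp S ar M → (Empty → M) → Prop} (hP : FD S ar Empty P) :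
    FD Unit (fun _ => 2) (Fin (q + 1)) (fun V R c => P {x // Ty (aR R) c 0 x}
      (fun s v => rho hS hK p (aR R) c s (fun i => (v i).1)) Empty.elim) :=
  fd_relatP hP (Z := fun V R c x => Ty (aR R) c 0 x)
    (fd_ty (c := fun M v => v ∘ Sum.inl) (fun i => El.var (Sum.inl i)) 0 El.inr)
    (ρ := fun s V R c v => rho hS hK p (aR R) c s v)
    (fun s => fd_rho (c := fun M v => v ∘ Sum.inl) (fun i => El.var (Sum.inl i)) hS hK p s
      (u := fun M v => v ∘ Sum.inr) (fun i => El.var (Sum.inr i)))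

end Pool.Agent.Helper14.GC
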