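import Pool.Agent.Helper14.GC.Decode
import Pool.Agent.Helper14.GC.FDs
import Pool.Agent.Helper20.Spectra.UIFin

/-!
# Counting: labelled graphs and labelled structures
-/

set_option autoImplicit false

namespace Pool.Agent.Helper14.GC

open FirstOrder FirstOrder.Language Pool.Agent.Helper20.Spectra Pool.Agent.Helper38.DG

section

variable {S : Type} {ar : S → ℕ} {K q n N : ℕ} (hS : ∀ s, ar s ≤ K) (hK : 1 ≤ K)
  (p : Fin q ≃ Fin K ⊕ S)

/-- the numbered code -/
def std (e : CV K q n ≃ Fin N) (T : Interp S ar (Fin n)) : SimpleGraph (Fin N) where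
  Adj x y := adjC hS hK p T (e.symm x) (e.symm y)
  symm := ⟨fun x y h => adjC_symm hS hK p T _ _ h⟩
  loopless := ⟨fun x h => adjC_irrefl hS hK p T _ h⟩

/-- the code as an interpretation -/
def codeI (T : Interp S ar (Fin n)) : Interp Unit (fun _ => 2) (CV K q n) :=
  fun _ v => adjC hS hK p T (v 0) (v 1)

lemma grI_std (e : CV K q n ≃ Fin N) (T : Interp S ar (Fin n)) :
    grI (std hS hK p e T) = fun s w => codeI hS hK p T s (e.symm ∘ w) := rfl

/-- the condition on graphs -/
def PhiG (P : ∀ (M : Type), Interp S ar M → (Empty → M) → Prop) (M : Type)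
    (R : Interp Unit (fun _ => 2) M) : Prop :=
  ∃ c : Fin (q + 1) → M, AxG hS hK p (aR R) c ∧ P {x // Ty (aR R) c 0 x}
      (fun s v => rho hS hK p (aR R) c s (fun i => (v i).1)) Empty.elim

lemma phiG_std [Finite S] {P : ∀ (M : Type), Interp S ar M → (Empty → M) → Prop}
    (hP : FD S ar Empty P) (hn : 1 ≤ n) (e : CV K q n ≃ Fin N) (T : Interp S ar (Fin n))
    (hT : P (Fin n) T Empty.elim) : PhiG hS hK p P (Fin N) (grI (std hS hK p e T)) := by
  refine ⟨e ∘ Sum.inl, ?_, ?_⟩
  · rw [grI_std]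
    exact ((fd_axg hS hK p).transport e (codeI hS hK p T) Sum.inl).1 (axG_code hS hK p T)
  · rw [grI_std]
    exact ((fd_relP hS hK p hP).transport e (codeI hS hK p T) Sum.inl).1
      ((relP_code hS hK p T hn hP).2 hT)

lemma card_CV : Fintype.card (CV K q n) = gN K q n := by
  simp [gN, Nat.mul_comm]

lemma gN_inj {m : ℕ} (h : gN K q m = gN K q n) : m = n := by
  have key : ∀ a b : ℕ, a < b → gN K q a < gN K q b := by
    intro a b hab
    have h1 : q * a ^ K ≤ q * b ^ K := Nat.mul_le_mul_left _ (Nat.pow_le_pow_left hab.le _)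
    unfold gN
    omega
  rcases lt_trichotomy m n with h1 | h1 | h1
  · exact absurd h (key _ _ h1).ne
  · exact h1
  · exact absurd h (key _ _ h1).ne'

lemma exists_std {P : ∀ (M : Type), Interp S ar M → (Empty → M) → Prop}
    (hP : FD S ar Empty P) (hn : 1 ≤ n) (G : SimpleGraph (Fin (gN K q n)))
    (hG : PhiG hS hK p P (Fin (gN K q n)) (grI G)) :
    ∃ (e : CV K q n ≃ Fin (gN K q n)) (T : Interp S ar (Fin n)), std hS hK p e T = G ∧
      P (Fin n) T Empty.elim := by
  obtain ⟨c, hax, hrel⟩ := hG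
  obtain ⟨m, e, T, hc, hadj⟩ := decode hS hK p hax
  have h1 : m = n := by
    have h2 := Fintype.card_congr e
    rw [card_CV, Fintype.card_fin] at h2
    exact gN_inj h2
  subst h1
  have h2 : std hS hK p e T = G := by
    ext x y
    show adjC hS hK p T (e.symm x) (e.symm y) ↔ G.Adj x y
    rw [hadj, Equiv.apply_symm_apply, Equiv.apply_symm_apply]
    exact Iff.rfl
  refine ⟨e, T, h2, ?_⟩
  have h3 : c = e ∘ Sum.inl := funext fun i => (hc i).symm
  rw [← h2, grI_std, h3] at hrel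
  exact (relP_code hS hK p T hn hP).1
    (((fd_relP hS hK p hP).transport e (codeI hS hK p T) Sum.inl).2 hrel)

/-- the code of a permutation -/
def mapCE (σ : Equiv.Perm (Fin n)) : CV K q n ≃ CV K q n where
  toFun := mapC σ
  invFun := mapC σ.symm
  left_inv u := by rcases u with i | a | ⟨x, j⟩ <;> simp [mapC]
  right_inv u := by rcases u with i | a | ⟨x, j⟩ <;> simp [mapC]

lemma adjC_map (σ : Equiv.Perm (Fin n)) (T : Interp S ar (Fin n)) (u v : CV K q n) :
    adjC hS hK p (fun s v => T s (fun i => σ (v i))) u v ↔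
      adjC hS hK p T (mapC σ u) (mapC σ v) := by
  have hinc : ∀ a x c, inc hS hK (fun s v => T s (fun i => σ (v i))) a x c ↔
      inc hS hK T (σ a) (fun i => σ (x i)) c := by
    rintro a x (i | s)
    · show a = x i ↔ σ a = σ (x i)
      rw [σ.injective.eq_iff]
    · show (a = x ⟨0, hK⟩ ∧ _) ↔ (σ a = σ (x ⟨0, hK⟩) ∧ _)
      rw [σ.injective.eq_iff]
  have hxy : ∀ x y : Fin K → Fin n, x = y ↔ (fun i => σ (x i)) = fun i => σ (y i) := by
    intro x y
    constructor
    · rintro rfl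
      rfl
    · intro h
      exact funext fun i => σ.injective (congrFun h i)
  rcases u with i | a | ⟨x, j⟩ <;> rcases v with i' | a' | ⟨x', j'⟩
  · exact Iff.rfl
  · exact Iff.rfl
  · exact Iff.rfl
  · exact Iff.rfl
  · exact Iff.rfl
  · exact hinc _ _ _
  · exact Iff.rfl
  · exact hinc _ _ _
  · show (x = x' ∧ j ≠ j') ↔ _
    rw [hxy]
    exact Iff.rfl

/-- change of the numbering -/
def reE (σ : Equiv.Perm (Fin n)) (e : CV K q n ≃ Fin N) : CV K q n ≃ Fin N :=
  (mapCE σ).trans e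

lemma reE_apply (σ : Equiv.Perm (Fin n)) (e : CV K q n ≃ Fin N) (u : CV K q n) :
    reE σ e u = e (mapC σ u) := rfl

lemma std_re (σ : Equiv.Perm (Fin n)) (e : CV K q n ≃ Fin N) (T : Interp S ar (Fin n)) :
    std hS hK p (reE σ e) (fun s v => T s (fun i => σ (v i))) = std hS hK p e T := by
  ext x y
  show adjC hS hK p _ ((reE σ e).symm x) ((reE σ e).symm y) ↔ adjC hS hK p T (e.symm x) (e.symm y)
  rw [adjC_map]
  have h1 : ∀ x, mapC σ ((reE σ e).symm x) = e.symm x := by
    intro x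
    show (mapCE σ) ((mapCE σ).symm (e.symm x)) = e.symm x
    rw [Equiv.apply_symm_apply]
  rw [h1, h1]

lemma std_eq (hn : q + 2 ≤ n) {e e' : CV K q n ≃ Fin N} {T T' : Interp S ar (Fin n)}
    (h : std hS hK p e T = std hS hK p e' T') :
    ∃ σ : Equiv.Perm (Fin n), (∀ u, e u = e' (mapC σ u)) ∧
      T = fun s v => T' s (fun i => σ (v i)) := by
  obtain ⟨σ, h1, h2⟩ := rigid hS hK p hn T T' (e.trans e'.symm) (fun u v => by
    have h3 : (std hS hK p e T).Adj (e u) (e v) ↔ (std hS hK p e' T').Adj (e u) (e v) := by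
      rw [h]
    have h4 : adjC hS hK p T (e.symm (e u)) (e.symm (e v)) ↔
      adjC hS hK p T' (e'.symm (e u)) (e'.symm (e v)) := h3
    rw [Equiv.symm_apply_apply, Equiv.symm_apply_apply] at h4
    exact h4)
  refine ⟨σ, fun u => ?_, h2⟩
  rw [← h1 u]
  show e u = e' (e'.symm (e u))
  rw [Equiv.apply_symm_apply]

end

lemma numModels_eq {S : Type} {ar : S → ℕ} (φ : (RelLang S ar).Sentence) (n : ℕ) :
    numModels φ n = Nat.card {R : Interp S ar (Fin n) //
      @Formula.Realize _ (Fin n) (mkS R) _ φ Empty.elim} := by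
  unfold numModels
  have key : ∀ R : Interp S ar (Fin n),
      @Sentence.Realize (RelLang S ar) (Fin n) (mkS R) φ ↔
        @Formula.Realize _ (Fin n) (mkS R) _ φ Empty.elim := fun R =>
    (real_iff (mkS R) φ Empty.elim default).symm
  symm
  refine Nat.card_congr (Equiv.ofBijective
    (fun R : {R : Interp S ar (Fin n) // @Formula.Realize _ (Fin n) (mkS R) _ φ Empty.elim} =>
      (⟨mkS R.1, (key R.1).2 R.2⟩ :
        {T : (RelLang S ar).Structure (Fin n) // @Sentence.Realize _ (Fin n) T φ})) ⟨?_, ?_⟩)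
  · rintro ⟨R, hR⟩ ⟨R', hR'⟩ h
    have h1 : mkS R = mkS R' := congrArg Subtype.val h
    apply Subtype.ext
    show R = R'
    funext s v
    have h2 := congrArg (fun T : (RelLang S ar).Structure (Fin n) =>
      T.RelMap (⟨s, rfl⟩ : (RelLang S ar).Relations (ar s)) v) h1
    exact h2
  · rintro ⟨T, hT⟩
    have e := structure_eq T
    refine ⟨⟨fun s v => T.RelMap (⟨s, rfl⟩ : (RelLang S ar).Relations (ar s)) v, ?_⟩, ?_⟩
    · rw [← key, ← e]
      exact hT
    · apply Subtype.ext
      exact e.symm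

/-- reduction to graphs -/
theorem graph_red {S : Type} [Finite S] {ar : S → ℕ} (φ : (RelLang S ar).Sentence) (K : ℕ)
    (hK : 1 ≤ K) (hS : ∀ s, ar s ≤ K) :
    ∃ (ψ : Language.graph.Sentence) (q : ℕ), ∀ n, q + 2 ≤ n →
      numGraphs ψ (gN K q n) * n.factorial = (gN K q n).factorial * numModels φ n := by
  classical
  obtain ⟨q, ⟨p'⟩⟩ := Finite.exists_equiv_fin (Fin K ⊕ S)
  let p : Fin q ≃ Fin K ⊕ S := p'.symm
  let P : ∀ (M : Type), Interp S ar M → (Empty → M) → Prop := fun M R v =>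
    @Formula.Realize _ M (mkS R) _ φ v
  have hP : FD S ar Empty P := ⟨φ, fun M R v => Iff.rfl⟩
  have hPhi : FD Unit (fun _ => 2) Empty (fun M R _ => PhiG hS hK p P M R) :=
    FD.ex (β := Fin (q + 1)) (FD.sub (f := fun M v => v ∘ Sum.inr) ⟨Sum.inr, fun _ _ => rfl⟩
      ((fd_axg hS hK p).and (fd_relP hS hK p hP)))
  obtain ⟨ψ, hψ⟩ := exists_gr_sentence hPhi
  refine ⟨ψ, q, fun n hn => ?_⟩
  have hn1 : 1 ≤ n := by omega
  have hG : numGraphs ψ (gN K q n) = Nat.card {G : SimpleGraph (Fin (gN K q n)) //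
      PhiG hS hK p P (Fin (gN K q n)) (grI G)} := by
    unfold numGraphs
    exact Nat.card_congr (Equiv.subtypeEquivRight fun G => hψ _ G)
  rw [hG, numModels_eq]
  have hE : (gN K q n).factorial = Nat.card (CV K q n ≃ Fin (gN K q n)) := by
    rw [Nat.card_eq_fintype_card,
      Fintype.card_equiv (Fintype.equivFinOfCardEq (card_CV (K := K) (q := q) (n := n))), card_CV]
  have hn' : n.factorial = Nat.card (Equiv.Perm (Fin n)) := by
    rw [Nat.card_eq_fintype_card, Fintype.card_perm, Fintype.card_fin]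
  rw [hE, hn', ← Nat.card_prod, ← Nat.card_prod]
  have hsur : ∀ G : {G : SimpleGraph (Fin (gN K q n)) //
      PhiG hS hK p P (Fin (gN K q n)) (grI G)},
      ∃ (e : CV K q n ≃ Fin (gN K q n)) (T : Interp S ar (Fin n)), std hS hK p e T = G.1 ∧
        P (Fin n) T Empty.elim := fun G => exists_std hS hK p hP hn1 G.1 G.2
  choose e₀ T₀ h₀ hT₀ using hsur
  have htr : ∀ (σ : Equiv.Perm (Fin n)) (T : Interp S ar (Fin n)), P (Fin n) T Empty.elim →
      P (Fin n) (fun s v => T s (fun i => σ (v i))) Empty.elim := by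
    intro σ T hT
    have h1 := (hP.transport σ.symm T Empty.elim).1 hT
    have h2 : (⇑σ.symm ∘ Empty.elim : Empty → Fin n) = Empty.elim := Subsingleton.elim _ _
    rw [h2] at h1
    exact h1
  refine Nat.card_congr (Equiv.ofBijective
    (fun x : {G : SimpleGraph (Fin (gN K q n)) //
      PhiG hS hK p P (Fin (gN K q n)) (grI G)} × Equiv.Perm (Fin n) =>
      ((reE x.2 (e₀ x.1), ⟨fun s v => T₀ x.1 s (fun i => x.2 (v i)), htr x.2 _ (hT₀ x.1)⟩) :
        (CV K q n ≃ Fin (gN K q n)) × {R : Interp S ar (Fin n) // P (Fin n) R Empty.elim}))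
    ⟨?_, ?_⟩)
  · rintro ⟨G, σ⟩ ⟨G', σ'⟩ h
    have h1 : reE σ (e₀ G) = reE σ' (e₀ G') := congrArg Prod.fst h
    have h2 : (fun s v => T₀ G s (fun i => σ (v i)) : Interp S ar (Fin n)) =
        (fun s v => T₀ G' s (fun i => σ' (v i))) :=
      congrArg (fun x => (Prod.snd x).1) h
    have h3 : G = G' := by
      apply Subtype.ext
      rw [← h₀ G, ← h₀ G', ← std_re hS hK p σ (e₀ G) (T₀ G), ← std_re hS hK p σ' (e₀ G') (T₀ G'),
        h1, h2]
    subst h3
    have h4 : σ = σ' := by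
      ext a
      have h5 := congrArg (fun e : CV K q n ≃ Fin (gN K q n) => e (el a)) h1
      simp only [reE_apply] at h5
      have h6 : (el (σ a) : CV K q n) = el (σ' a) := (e₀ G).injective h5
      exact congrArg Fin.val (el_inj h6)
    rw [h4]
  · rintro ⟨e, T, hT⟩
    let G : {G : SimpleGraph (Fin (gN K q n)) // PhiG hS hK p P (Fin (gN K q n)) (grI G)} :=
      ⟨std hS hK p e T, phiG_std hS hK p hP hn1 e T hT⟩
    obtain ⟨σ, h1, h2⟩ := std_eq hS hK p hn (h₀ G).symm
    refine ⟨(G, σ), ?_⟩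
    refine Prod.ext ?_ (Subtype.ext ?_)
    · apply Equiv.ext
      intro u
      exact (h1 u).symm
    · exact h2.symm

end Pool.Agent.Helper14.GC
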