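import Pool.Agent.Helper14.GC.Adv2
import Pool.Agent.Helper14.GC.Fin
import Pool.Agent.Helper14.GC.Red
import Pool.Agent.Helper12.SS.AMain

/-!
# Digits of the number of labelled graphs, with advice
-/

set_option autoImplicit false

namespace Pool.Agent.Helper14.GC

open FirstOrder FirstOrder.Language Pool.Agent.Helper20.Spectra Pool.Agent.Helper38.DG
open Pool.Agent.Helper12.SS Pool.Agent.Helper38.DG.AdvT Pool.Agent.Helper14.SS
open scoped Classical

/-- the digits, with the advice as a parameter -/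
def Ea (R : Set (Fin 3 → ℕ)) (h : Polynomial ℕ) (a : ℕ) : Set (Fin 2 → ℕ) :=
  {w | ![h.eval (w 0), w 1, a] ∈ R}

lemma divA_rudX {R : Set (Fin 3 → ℕ)} (hR : Rud 3 R) (h : Polynomial ℕ) {κ : Type} {b : κ → ℕ}
    {k : ℕ} {s t u α : (Fin k → ℕ) → ℕ} (hs : Helper20.Spectra.IsPoly k s)
    (ht : Helper20.Spectra.IsPoly k t) (hu : Helper20.Spectra.IsPoly k u)
    (hα : Helper20.Spectra.IsPoly k α) :
    RudX (Sum.elim b dvA) k
      (fun Y v => DivCond (Ea R h (α v)) (s v) (t v) (u v) (fun i => Y (Sum.inr i))) := by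
  have V : ∀ {m : ℕ} (i : Fin m), Helper20.Spectra.IsPoly m (fun v => v i) :=
    fun i => Helper20.Spectra.IsPoly.var i
  unfold DivCond
  refine RudX.and' (RudX.all hs (RudX.imp (RudX.lt (V 0) hs.tail)
    (RudX.and' (tC_rudX (V 0) (pcD 0) (pcD 0)) (RudX.and' ?_ ?_))))
    (RudX.and' ?_ ?_)
  · exact RudX.all hs.tail (RudX.imp (tC_rudX (V 1) ht.tail.tail (V 0))
      (RudX.eq (V 0) (pcD 0)))
  · refine RudX.all ht.tail (RudX.imp (RudX.lt (V 0) ht.tail.tail)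
      (RudX.all hs.tail.tail (RudX.imp (tC_rudX (V 2) (V 1) (V 0)) ?_)))
    unfold DivS
    refine RudX.ex hs.tail.tail.tail (RudX.and' (tC_rudX (V 3)
      ((V 2).add (pcD 1)) (V 0)) (RudX.ex (pcD 1)
        (RudX.ex (pcD 1) (RudX.and' ?_ (RudX.and' ?_ ?_)))))
    · exact RudX.iff (RudX.eq (V 1) (pcD 1)) (tR_rudX ((V 5).add (pcD 1)) (V 4))
    · exact RudX.iff (RudX.eq (V 0) (pcD 1)) (tR_rudX (V 5) (V 4))
    · exact RudX.eq ((V 1).add ((pcD 2).mul (V 2))) ((((V 5).add (pcD 1)).mul (V 0)).add (V 3))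
  · refine RudX.all ht (RudX.imp (RudX.lt (V 0) ht.tail)
      (RudX.iff (tR_rudX hs.tail (V 0)) ?_))
    have h1 : RudX (Sum.elim b dvA) 3 (fun _ v => v ∈ R) := RudX.ofRud hR
    refine (h1.subst (k + 1) ![fun v => h.eval (u (Fin.tail v)), fun v => v 0,
      fun v => α (Fin.tail v)] ?_).congr (fun X v => ?_)
    · intro i
      fin_cases i
      · exact Helper20.Spectra.IsPoly.polyEval h hu.tail
      · exact V 0
      · exact hα.tail
    · refine Iff.of_eq (congrArg (fun w => w ∈ R) ?_)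
      funext i
      fin_cases i <;> rfl
  · exact RudX.and' (RudX.lt (hu.pow 3) ht) (tR_rudX (pcD 0) (hu.pow 3))

/-- division by a factorial, with advice -/
theorem divisionA (hQ : ∀ A : Set ℕ, IsSpectrum A → RudAdv A) {E : ℕ → ℕ → Prop}
    (hE : RudAdv2 E) (h : Polynomial ℕ) (hh : h ≠ 0) {q : (Fin 1 → ℕ) → ℕ}
    (hq : Helper20.Spectra.IsPoly 1 q) (g : ℕ → ℕ) (n₀ : ℕ)
    (h1 : ∀ n, n₀ ≤ n → ∀ i, (E (h.eval n) i ↔
      ((h.eval n).factorial * g n).testBit i = true))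
    (h2 : ∀ n, n₀ ≤ n → (h.eval n).factorial * g n < 2 ^ q (fun _ => n)) :
    RudAdv {n : ℕ | n₀ ≤ n ∧ 1 ≤ n ∧ (g n).testBit (n ^ 3) = true} := by
  obtain ⟨R, c, hR, hW⟩ := pre2 hE h hh
  have V : ∀ {m : ℕ} (i : Fin m), Helper20.Spectra.IsPoly m (fun v => v i) :=
    fun i => Helper20.Spectra.IsPoly.var i
  have hqm : ∀ {m : ℕ} {t : (Fin m → ℕ) → ℕ}, Helper20.Spectra.IsPoly m t →
      Helper20.Spectra.IsPoly m (fun v => q (fun _ => t v)) := fun ht => hq.sub (fun _ => ht)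
  let B : Set ℕ := {x | 1 ≤ x ∧ ∃ n, n ≤ x ∧ ∃ a, a ≤ x ∧ ((n₀ ≤ n ∧ 1 ≤ n ∧ (n + a) ^ 2 + n = x) ∧
    ∃ W : SOA dvA, DivCond (Ea R h a) (h.eval n) (q (fun _ => n)) n W)}
  have hB : IsSpectrum B := by
    refine ESO.isSpectrum (R := fun x => ∃ n, n ≤ x ∧ ∃ a, a ≤ x ∧
      ((n₀ ≤ n ∧ 1 ≤ n ∧ (n + a) ^ 2 + n = x) ∧
      ∃ W : SOA dvA, DivCond (Ea R h a) (h.eval n) (q (fun _ => n)) n W)) ?_
    refine ESO.ex (V 0) (ESO.ex (V 0).tail (ESO.and (ESO.of ?_) ?_))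
    · have w1 : Helper20.Spectra.IsPoly (1 + 1 + 1) (fun w => Fin.tail w 0) := V 1
      have w2 : Helper20.Spectra.IsPoly (1 + 1 + 1) (fun w => Fin.tail (Fin.tail w) 0) := V 2
      exact RudX.and' (RudX.le (pcD n₀) w1) (RudX.and' (RudX.le (pcD 1) w1)
        (RudX.eq (((w1.add (V 0)).pow 2).add w1) w2))
    · have w1 : Helper20.Spectra.IsPoly (1 + 1 + 1) (fun w => Fin.tail w 0) := V 1
      have h4 : ESO (Sum.elim none0 dvA) (1 + 1 + 1) (fun Y w =>
          DivCond (Ea R h (w 0)) (h.eval (Fin.tail w 0)) (q (fun _ => Fin.tail w 0))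
            (Fin.tail w 0) (fun i => Y (Sum.inr i))) :=
        ESO.of (divA_rudX hR h (Helper20.Spectra.IsPoly.polyEval h w1) (hqm w1) w1 (V 0))
      exact h4.exSO
  refine advComp (hQ B hB) (c := c) (fun N hN => ?_)
  obtain ⟨a, ha, h3⟩ := hW N hN
  refine ⟨a, ha, fun n hn1 hn2 => ?_⟩
  have hEa : n₀ ≤ n → ∀ i, (![n, i] ∈ Ea R h a ↔
      ((h.eval n).factorial * g n).testBit i = true) := by
    intro hn i
    rw [← h1 n hn i, h3 n hn1 hn2 i]
    exact Iff.rfl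
  constructor
  · rintro ⟨hn, hn', h4⟩
    refine ⟨by omega, n, le_pr_left n a, a, le_pr_right n a, ⟨hn, hn', rfl⟩, ?_⟩
    exact divCond_exists (hEa hn) (h2 n hn) h4
  · rintro ⟨_, n', _, a', _, ⟨h4, h5, h6⟩, W, h7⟩
    obtain ⟨h8, h9⟩ := pr_inj (x := n') (y := a') (x' := n) (y' := a) h6
    subst h8
    subst h9
    exact ⟨h4, h5, divCond_sound h7 (hEa h4) (h2 _ h4)⟩

/-- if the digits of all graph sentences are in the class, then all spectra are -/
theorem graphDigAdv_spec (hdig : ∀ φ : Language.graph.Sentence,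
    RudAdv2 (fun n i => (numGraphs φ n).testBit i = true)) (A : Set ℕ) (hA : IsSpectrum A) :
    RudAdv A := by
  obtain ⟨φ, hφ⟩ := exists_universal_graph
  obtain ⟨h, rfl⟩ := hφ A hA
  obtain ⟨R, c, hR, hW⟩ := hdig φ
  have V : ∀ {m : ℕ} (i : Fin m), Helper20.Spectra.IsPoly m (fun v => v i) :=
    fun i => Helper20.Spectra.IsPoly.var i
  have h1 : RudAdv {n : ℕ | 1 ≤ n ∧ numGraphs φ n ≠ 0} := by
    obtain ⟨E', hE', h'⟩ := exists_pair
      (P := fun n a => 1 ≤ n ∧ ∃ i, i ≤ n ^ 2 + 1 ∧ ![n, i, a] ∈ R) (by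
      refine RudX.and' (RudX.le (pcD 1) (V 0)) (RudX.ex (((V 0).pow 2).add (pcD 1)) ?_)
      have h1 : RudX nA 3 (fun _ v => v ∈ R) := RudX.ofRud hR
      refine (h1.subst 3 ![fun v => v 1, fun v => v 0, fun v => v 2] ?_).congr (fun X v => ?_)
      · intro i
        fin_cases i
        · exact V 1
        · exact V 0
        · exact V 2
      · refine Iff.of_eq (congrArg (fun w => w ∈ R) ?_)
        funext i
        fin_cases i <;> rfl)
    refine ⟨E', c, hE', fun N hN => ?_⟩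
    obtain ⟨a, ha, h3⟩ := hW N hN
    refine ⟨a, ha, fun n hn1 hn2 => ?_⟩
    rw [h']
    refine and_congr_right fun _ => ?_
    rw [numGraphs_ne_iff]
    exact exists_congr fun i => and_congr_right fun _ => h3 n hn1 hn2 i
  have h2 := advPre _ h h1
  exact h2

/-- the digits of the number of labelled graphs, with advice -/
theorem digitsGraphAdv_of
    (htoda : ∀ A : Set ℕ, RudS ll A →
      ∃ (G : SOA noV → (Fin 1 → ℕ) → ℕ) (n₀ : ℕ), Cn noV 1 G ∧ ∀ n, n₀ ≤ n →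
        ((G nil (fun _ => n)).testBit (n ^ 3) = true ↔ n ∈ A)) :
    ∃ φ : Language.graph.Sentence,
      ¬ RudAdv2 (fun n i => (numGraphs φ n).testBit i = true) := by
  by_contra hcon
  push Not at hcon
  have hQ : ∀ A : Set ℕ, IsSpectrum A → RudAdv A := graphDigAdv_spec hcon
  obtain ⟨θ, hθ⟩ := aDiag' hQ
  have hD : ¬ RudAdv (arithS ll θ) := hθ ll ll_mono (fun b => by
    obtain ⟨n, hn⟩ := ll_unb (b + 1)
    exact ⟨n, hn⟩)
  obtain ⟨G, n₀, hG, hGD⟩ := htoda (arithS ll θ) (setArith_rudS ll _ ⟨θ, rfl⟩)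
  obtain ⟨S, hS, ar, φ, hφ⟩ := cn_modelsR hG
  obtain ⟨K, hK, hKS⟩ : ∃ K, 1 ≤ K ∧ ∀ s, ar s ≤ K := by
    have := Fintype.ofFinite S
    exact ⟨(∑ s, ar s) + 1, by omega, fun s =>
      (Finset.single_le_sum (f := ar) (fun _ _ => Nat.zero_le _) (Finset.mem_univ s)).trans
        (Nat.le_succ _)⟩
  obtain ⟨ψ, q, hψ⟩ := graph_red φ K hK hKS
  have hgraph : ∀ n, q + 2 ≤ n → numGraphs ψ (gN K q n) =
      (gN K q n).factorial * G nil (fun _ => n) := by
    intro n hn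
    have h1 := hψ n hn
    rw [hφ n (by omega)] at h1
    have h2 : numGraphs ψ (gN K q n) * n.factorial =
        ((gN K q n).factorial * G nil (fun _ => n)) * n.factorial := by
      rw [h1]
      ring
    exact Nat.eq_of_mul_eq_mul_right (Nat.factorial_pos n) h2
  let h : Polynomial ℕ := Polynomial.C (q + 1) + (Polynomial.X + Polynomial.C q * Polynomial.X ^ K)
  have hev : ∀ n, h.eval n = gN K q n := fun n => by
    simp [h, gN]
  have hh : h ≠ 0 := by
    intro h0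
    have h1 := hev 0
    rw [h0, Polynomial.eval_zero] at h1
    unfold gN at h1
    omega
  have V : ∀ {m : ℕ} (i : Fin m), Helper20.Spectra.IsPoly m (fun v => v i) :=
    fun i => Helper20.Spectra.IsPoly.var i
  have hdiv := divisionA hQ (hcon ψ) h hh
    (q := fun v => h.eval (v 0) ^ 2 + 1)
    (((Helper20.Spectra.IsPoly.polyEval h (V 0)).pow 2).add (pcD 1))
    (fun n => G nil (fun _ => n)) (q + 2) (fun n hn i => by
      rw [hev, ← hgraph n hn]) (fun n hn => by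
      show (h.eval n).factorial * G nil (fun _ => n) < 2 ^ (h.eval n ^ 2 + 1)
      rw [hev, ← hgraph n hn]
      exact numGraphs_lt ψ _)
  refine hD (advFin _ _ (max (q + 2) n₀) hdiv fun n hn => ?_)
  have h1 : q + 2 ≤ n := le_trans (le_max_left _ _) hn
  have h2 : n₀ ≤ n := le_trans (le_max_right _ _) hn
  constructor
  · rintro ⟨-, -, h3⟩
    exact (hGD n h2).1 h3
  · intro h3
    exact ⟨h1, by omega, (hGD n h2).2 h3⟩

end Pool.Agent.Helper14.GC
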