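import Pool.Agent.Helper14.GC.Model

/-!
# Every finite model of the axioms is a code
-/

set_option autoImplicit false

namespace Pool.Agent.Helper14.GC

open FirstOrder FirstOrder.Language Pool.Agent.Helper20.Spectra Pool.Agent.Helper38.DG

variable {S : Type} {ar : S → ℕ} {K q : ℕ} (hS : ∀ s, ar s ≤ K) (hK : 1 ≤ K)
  (p : Fin q ≃ Fin K ⊕ S)

theorem decode {V : Type} [Finite V] {A : V → V → Prop} {c : Fin (q + 1) → V}
    (h : AxG hS hK p A c) : ∃ (m : ℕ) (e : CV K q m ≃ V) (T : Interp S ar (Fin m)),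
      (∀ i, e (.inl i) = c i) ∧ ∀ u v, adjC hS hK p T u v ↔ A (e u) (e v) := by
  classical
  obtain ⟨m, ⟨δ'⟩⟩ := Finite.exists_equiv_fin {v // Ty A c 0 v}
  let δ : Fin m ≃ {v // Ty A c 0 v} := δ'.symm
  have hW : ∀ (j : Fin q) (x : Fin K → Fin m), ∃ w, Cw p A c j w (fun i => (δ (x i)).1) :=
    fun j x => h.ex j _ (fun i => (δ (x i)).2)
  choose W hW using hW
  let f : CV K q m → V := fun u => match u with
    | .inl i => c i
    | .inr (.inl a) => (δ a).1
    | .inr (.inr (x, j)) => W j x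
  have tyu : ∀ {j j' : Fin (q + 1)} {v : V}, Ty A c j v → Ty A c j' v → j = j' :=
    fun {j j' v} h1 h2 => le_antisymm ((h2 j).1 ((h1 j).2 le_rfl)) ((h1 j').1 ((h2 j').2 le_rfl))
  have tyc : ∀ {j i : Fin (q + 1)}, ¬ Ty A c j (c i) := fun {j i} h1 =>
    h.cc 0 i ((h1 0).2 (Fin.zero_le _))
  have hinj : Function.Injective f := by
    rintro (i | a | ⟨x, j⟩) (i' | a' | ⟨x', j'⟩) hf
    · rw [h.cinj i i' hf]
    · have hf' : c i = (δ a').1 := hf
      exact absurd (hf' ▸ (δ a').2) tyc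
    · have hf' : c i = W j' x' := hf
      exact absurd (hf' ▸ (hW j' x').1) tyc
    · have hf' : (δ a).1 = c i' := hf
      exact absurd (hf' ▸ (δ a).2) tyc
    · have hf' : (δ a).1 = (δ a').1 := hf
      rw [δ.injective (Subtype.ext hf')]
    · have hf' : (δ a).1 = W j' x' := hf
      have h1 := (δ a).2
      rw [hf'] at h1
      exact absurd (tyu h1 (hW j' x').1) (Fin.succ_ne_zero j').symm
    · have hf' : W j x = c i' := hf
      exact absurd (hf' ▸ (hW j x).1) tyc
    · have hf' : W j x = (δ a').1 := hf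
      have h1 := (δ a').2
      rw [← hf'] at h1
      exact absurd (tyu h1 (hW j x).1) (Fin.succ_ne_zero j).symm
    · have hf' : W j x = W j' x' := hf
      have h1 := (hW j' x').1
      rw [← hf'] at h1
      have h2 : j = j' := Fin.succ_injective _ (tyu (hW j x).1 h1)
      subst h2
      have h3 := hW j x'
      rw [← hf'] at h3
      have h4 : x = x' := funext fun i =>
        δ.injective (Subtype.ext (h.ud _ _ _ _ (hW j x) h3 i))
      rw [h4]
  have hsur : Function.Surjective f := by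
    intro v
    rcases h.ty v with ⟨i, rfl⟩ | ⟨j, hj⟩
    · exact ⟨.inl i, rfl⟩
    · refine Fin.cases (motive := fun j => Ty A c j v → ∃ u, f u = v) ?_ ?_ j hj
      · intro h1
        refine ⟨.inr (.inl (δ.symm ⟨v, h1⟩)), ?_⟩
        show (δ (δ.symm ⟨v, h1⟩)).1 = v
        rw [Equiv.apply_symm_apply]
      · intro k h1
        obtain ⟨d, hd⟩ := h.co k v h1
        refine ⟨.inr (.inr (fun i => δ.symm ⟨d i, hd.2.1 i⟩, k)), ?_⟩
        have h2 : (fun i => (δ (δ.symm ⟨d i, hd.2.1 i⟩)).1) = d := by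
          funext i
          rw [Equiv.apply_symm_apply]
        have h3 := hW k (fun i => δ.symm ⟨d i, hd.2.1 i⟩)
        rw [h2] at h3
        exact h.un _ _ _ _ h3 hd
  let T : Interp S ar (Fin m) := fun s v => rho hS hK p A c s (fun i => (δ (v i)).1)
  refine ⟨m, Equiv.ofBijective f ⟨hinj, hsur⟩, T, fun i => rfl, ?_⟩
  -- elements and clusters
  have hinc : ∀ a x j, inc hS hK T a x (p j) ↔ A (δ a).1 (W j x) := by
    intro a x j
    rcases hj : p j with i | s
    · have hj' : j = p.symm (.inl i) := by rw [← hj, Equiv.symm_apply_apply]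
      have h1 := hW j x
      rw [hj'] at h1
      rw [hj', h.inn i _ _ _ h1 (δ a).2]
      constructor
      · intro h2
        have h3 : a = x i := h2
        rw [h3]
      · intro h2
        exact δ.injective (Subtype.ext h2)
    · have hj' : j = p.symm (.inr s) := by rw [← hj, Equiv.symm_apply_apply]
      have h1 := hW j x
      rw [hj'] at h1
      rw [hj']
      constructor
      · rintro ⟨h2, w', d', h3, h4, h5⟩
        rw [h2]
        exact h.dep s _ _ _ _ h3 h1 h4 h5
      · intro h2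
        have h3 : a = x ⟨0, hK⟩ := δ.injective (Subtype.ext (h.pr s _ _ _ h1 (δ a).2 h2))
        refine ⟨h3, _, _, h1, fun i => rfl, ?_⟩
        rw [h3] at h2
        exact h2
  have hsym : ∀ u v, A u v ↔ A v u := fun u v => ⟨h.symm _ _, h.symm _ _⟩
  rintro (i | a | ⟨x, j⟩) (i' | a' | ⟨x', j'⟩)
  · exact ⟨fun h1 => False.elim h1, fun h1 => h.cc i i' h1⟩
  · show i = 0 ↔ A (c i) (δ a').1
    rw [(δ a').2 i, Fin.le_zero_iff]
  · show i ≤ j'.succ ↔ A (c i) (W j' x')
    rw [(hW j' x').1 i]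
  · show i' = 0 ↔ A (δ a).1 (c i')
    rw [hsym, (δ a).2 i', Fin.le_zero_iff]
  · exact ⟨fun h1 => False.elim h1, fun h1 => h.ee _ _ (δ a).2 (δ a').2 h1⟩
  · exact hinc a x' j'
  · show i' ≤ j.succ ↔ A (W j x) (c i')
    rw [hsym, (hW j x).1 i']
  · show inc hS hK T a' x (p j) ↔ A (W j x) (δ a').1
    rw [hsym, hinc]
  · show (x = x' ∧ j ≠ j') ↔ A (W j x) (W j' x')
    rw [h.cl j j' _ _ _ _ (hW j x) (hW j' x')]
    constructor
    · rintro ⟨rfl, h1⟩
      exact ⟨fun i => rfl, h1⟩
    · rintro ⟨h1, h2⟩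
      exact ⟨funext fun i => δ.injective (Subtype.ext (h1 i)), h2⟩

end Pool.Agent.Helper14.GC
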