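import Pool.Agent.Helper38.DG.Defs
import Mathlib.ModelTheory.Graph

/-!
# Digits of the number of graphs: definitions; the code of a structure in a graph
-/

set_option autoImplicit false

namespace Pool.Agent.Helper14.GC

open FirstOrder FirstOrder.Language Pool.Agent.Helper20.Spectra Pool.Agent.Helper38.DG

/-- The number of graphs on the vertex set `{0, ..., n - 1}` with the property `φ`. -/
noncomputable def numGraphs (φ : Language.graph.Sentence) (n : ℕ) : ℕ :=
  Nat.card {G : SimpleGraph (Fin n) // @Sentence.Realize Language.graph (Fin n) G.structure φ}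

/-- all digit relations of graph sentences are rudimentary -/
def GraphDig : Prop :=
  ∀ φ : Language.graph.Sentence, Rud 2 {v : Fin 2 → ℕ | (numGraphs φ (v 0)).testBit (v 1) = true}

/-- number of vertices of the code -/
def gN (K q n : ℕ) : ℕ := (q + 1) + (n + q * n ^ K)

/-- vertices of the code: constants, elements, `q` vertices for each `K`-tuple -/
abbrev CV (K q n : ℕ) := Fin (q + 1) ⊕ (Fin n ⊕ ((Fin K → Fin n) × Fin q))

section Code

variable {S : Type} {ar : S → ℕ} {K q n : ℕ} (hS : ∀ s, ar s ≤ K) (hK : 1 ≤ K)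
  (p : Fin q ≃ Fin K ⊕ S)

/-- incidence of an element and a vertex of the cluster of a tuple -/
def inc (T : Interp S ar (Fin n)) (a : Fin n) (x : Fin K → Fin n) : Fin K ⊕ S → Prop
  | .inl i => a = x i
  | .inr s => a = x ⟨0, hK⟩ ∧ T s (fun j => x (Fin.castLE (hS s) j))

/-- adjacency of the code -/
def adjC (T : Interp S ar (Fin n)) : CV K q n → CV K q n → Prop
  | .inl _, .inl _ => False
  | .inl i, .inr (.inl _) => i = 0
  | .inr (.inl _), .inl i => i = 0
  | .inl i, .inr (.inr (_, j)) => i ≤ j.succ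
  | .inr (.inr (_, j)), .inl i => i ≤ j.succ
  | .inr (.inl _), .inr (.inl _) => False
  | .inr (.inl a), .inr (.inr (x, j)) => inc hS hK T a x (p j)
  | .inr (.inr (x, j)), .inr (.inl a) => inc hS hK T a x (p j)
  | .inr (.inr (x, j)), .inr (.inr (y, i)) => x = y ∧ j ≠ i

end Code

section Ax

variable {S : Type} {ar : S → ℕ} {K q : ℕ} (hS : ∀ s, ar s ≤ K) (hK : 1 ≤ K)
  (p : Fin q ≃ Fin K ⊕ S) {V : Type} (A : V → V → Prop) (c : Fin (q + 1) → V)

/-- the vertex `v` is of type `j` -/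
def Ty (j : Fin (q + 1)) (v : V) : Prop := ∀ i, A (c i) v ↔ i ≤ j

/-- the elements `d` are the coordinates of the vertex `w` -/
def Co (w : V) (d : Fin K → V) : Prop :=
  ∀ i : Fin K, ∃ w', Ty A c (p.symm (.inl i)).succ w' ∧ (w' = w ∨ A w' w) ∧ A (d i) w'

/-- `w` is of type `j + 1` with coordinates `d` -/
def Cw (j : Fin q) (w : V) (d : Fin K → V) : Prop :=
  Ty A c j.succ w ∧ (∀ i, Ty A c 0 (d i)) ∧ Co p A c w d

/-- the axioms -/
structure AxG : Prop where
  symm : ∀ u v, A u v → A v u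
  cinj : ∀ i j, c i = c j → i = j
  cc : ∀ i j, ¬ A (c i) (c j)
  ty : ∀ v, (∃ i, v = c i) ∨ ∃ j, Ty A c j v
  ee : ∀ a b, Ty A c 0 a → Ty A c 0 b → ¬ A a b
  ex : ∀ j (d : Fin K → V), (∀ i, Ty A c 0 (d i)) → ∃ w, Cw p A c j w d
  co : ∀ j w, Ty A c j.succ w → ∃ d, Cw p A c j w d
  un : ∀ j w w' d, Cw p A c j w d → Cw p A c j w' d → w = w'
  ud : ∀ j w (d d' : Fin K → V), Cw p A c j w d → Cw p A c j w d' → ∀ i, d i = d' i
  cl : ∀ j j' w w' (d d' : Fin K → V), Cw p A c j w d → Cw p A c j' w' d' →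
    (A w w' ↔ ((∀ i, d i = d' i) ∧ j ≠ j'))
  inn : ∀ i w (d : Fin K → V) a, Cw p A c (p.symm (.inl i)) w d → Ty A c 0 a →
    (A a w ↔ a = d i)
  pr : ∀ s w (d : Fin K → V) a, Cw p A c (p.symm (.inr s)) w d → Ty A c 0 a → A a w →
    a = d ⟨0, hK⟩
  dep : ∀ s w w' (d d' : Fin K → V), Cw p A c (p.symm (.inr s)) w d →
    Cw p A c (p.symm (.inr s)) w' d' →
    (∀ j, d (Fin.castLE (hS s) j) = d' (Fin.castLE (hS s) j)) →
    A (d ⟨0, hK⟩) w → A (d' ⟨0, hK⟩) w'

/-- the relations on the elements -/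
def rho (s : S) (v : Fin (ar s) → V) : Prop :=
  ∃ w, ∃ d : Fin K → V, Cw p A c (p.symm (.inr s)) w d ∧
    (∀ j, d (Fin.castLE (hS s) j) = v j) ∧ A (d ⟨0, hK⟩) w

end Ax

/-- the adjacency relation of an interpretation -/
def aR {V : Type} (R : Interp Unit (fun _ => 2) V) (x y : V) : Prop := R () ![x, y]

end Pool.Agent.Helper14.GC
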