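import Pool.Agent.Helper14.GC.AdvFin
import Pool.Agent.Helper38.DG.TodaR

/-!
# Digits of the number of labelled graphs
-/

set_option autoImplicit false

namespace Pool.Agent.Helper14.GC

open FirstOrder Pool.Agent.Helper38.DG

/-- for some sentence the relation `the i-th binary digit of the number of labelled graphs on n
vertices with φ is 1` is not rudimentary, even with advice -/
theorem digitsGraphAdv : ∃ φ : Language.graph.Sentence,
    ¬ RudAdv2 (fun n i => (numGraphs φ n).testBit i = true) :=
  digitsGraphAdv_of todaR

end Pool.Agent.Helper14.GC
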