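import Pool.Agent.Helper14.GC.Rigid

/-!
# The code satisfies the axioms
-/

set_option autoImplicit false

namespace Pool.Agent.Helper14.GC

open FirstOrder FirstOrder.Language Pool.Agent.Helper20.Spectra Pool.Agent.Helper38.DG

variable {S : Type} {ar : S → ℕ} {K q n : ℕ} (hS : ∀ s, ar s ≤ K) (hK : 1 ≤ K)
  (p : Fin q ≃ Fin K ⊕ S) (T : Interp S ar (Fin n))

/-- elements -/
abbrev el (a : Fin n) : CV K q n := .inr (.inl a)

/-- vertices of clusters -/
abbrev tu (x : Fin K → Fin n) (j : Fin q) : CV K q n := .inr (.inr (x, j))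

lemma ty_const (j i : Fin (q + 1)) : ¬ Ty (adjC hS hK p T) Sum.inl j (.inl i) := by
  intro h
  exact (h 0).2 (Fin.zero_le _)

lemma ty_el (j : Fin (q + 1)) (a : Fin n) : Ty (adjC hS hK p T) Sum.inl j (el a) ↔ j = 0 := by
  constructor
  · intro h
    exact (h j).2 le_rfl
  · rintro rfl i
    show i = 0 ↔ i ≤ 0
    rw [Fin.le_zero_iff]

lemma ty_tu (j : Fin (q + 1)) (x : Fin K → Fin n) (k : Fin q) :
    Ty (adjC hS hK p T) Sum.inl j (tu x k) ↔ j = k.succ := by
  constructor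
  · intro h
    exact le_antisymm ((h j).2 le_rfl) ((h k.succ).1 (le_refl k.succ))
  · rintro rfl i
    exact Iff.rfl

lemma ty_zero (v : CV K q n) : Ty (adjC hS hK p T) Sum.inl 0 v ↔ ∃ a, v = el a := by
  rcases v with i | a | ⟨x, j⟩
  · simp [ty_const]
  · rw [ty_el]
    simp
  · rw [ty_tu]
    simp [(Fin.succ_ne_zero j).symm]

lemma ty_succ (v : CV K q n) (j : Fin q) :
    Ty (adjC hS hK p T) Sum.inl j.succ v ↔ ∃ x, v = tu x j := by
  rcases v with i | a | ⟨x, k⟩
  · simp [ty_const]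
  · rw [ty_el]
    simp [Fin.succ_ne_zero j]
  · rw [ty_tu]
    constructor
    · intro h
      rw [Fin.succ_injective _ h]
      exact ⟨x, rfl⟩
    · rintro ⟨y, h⟩
      have : k = j := by
        have h1 := Sum.inr_injective (Sum.inr_injective h)
        exact congrArg Prod.snd h1
      rw [this]

lemma co_iff (x y : Fin K → Fin n) (j : Fin q) :
    Co p (adjC hS hK p T) Sum.inl (tu x j) (fun i => el (y i)) ↔ y = x := by
  constructor
  · intro h
    funext i
    obtain ⟨w', h1, h2, h3⟩ := h i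
    obtain ⟨z, rfl⟩ := (ty_succ hS hK p T _ _).1 h1
    have h4 : z = x := by
      rcases h2 with h2 | h2
      · have h1 := Sum.inr_injective (Sum.inr_injective h2)
        exact congrArg Prod.fst h1
      · exact h2.1
    have h5 : inc hS hK T (y i) z (p (p.symm (.inl i))) := h3
    rw [Equiv.apply_symm_apply, h4] at h5
    exact h5
  · rintro rfl i
    refine ⟨tu y (p.symm (.inl i)), (ty_succ hS hK p T _ _).2 ⟨y, rfl⟩, ?_, ?_⟩
    · by_cases h : p.symm (.inl i) = j
      · left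
        rw [h]
      · right
        exact ⟨rfl, h⟩
    · show inc hS hK T (y i) y (p (p.symm (.inl i)))
      rw [Equiv.apply_symm_apply]
      exact rfl

lemma cw_iff (j : Fin q) (w : CV K q n) (d : Fin K → CV K q n) :
    Cw p (adjC hS hK p T) Sum.inl j w d ↔ ∃ x, w = tu x j ∧ d = fun i => el (x i) := by
  constructor
  · rintro ⟨h1, h2, h3⟩
    obtain ⟨x, rfl⟩ := (ty_succ hS hK p T _ _).1 h1
    have h4 : ∀ i, ∃ a, d i = el a := fun i => (ty_zero hS hK p T _).1 (h2 i)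
    choose y hy using h4
    have h5 : d = fun i => el (y i) := funext hy
    rw [h5] at h3
    rw [co_iff] at h3
    rw [h3] at h5
    exact ⟨x, rfl, h5⟩
  · rintro ⟨x, rfl, rfl⟩
    exact ⟨(ty_succ hS hK p T _ _).2 ⟨x, rfl⟩, fun i => (ty_zero hS hK p T _).2 ⟨_, rfl⟩,
      (co_iff hS hK p T _ _ _).2 rfl⟩

lemma el_inj {a b : Fin n} (h : (el a : CV K q n) = el b) : a = b :=
  Sum.inl_injective (Sum.inr_injective h)

lemma tu_inj {x y : Fin K → Fin n} {j k : Fin q} (h : (tu x j : CV K q n) = tu y k) :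
    x = y ∧ j = k := by
  have h1 := Sum.inr_injective (Sum.inr_injective h)
  exact ⟨congrArg Prod.fst h1, congrArg Prod.snd h1⟩

/-- the code satisfies the axioms -/
theorem axG_code : AxG hS hK p (adjC hS hK p T) Sum.inl where
  symm := adjC_symm hS hK p T
  cinj i j h := Sum.inl_injective h
  cc i j h := h
  ty v := by
    rcases v with i | a | ⟨x, j⟩
    · exact Or.inl ⟨i, rfl⟩
    · exact Or.inr ⟨0, (ty_el hS hK p T _ _).2 rfl⟩
    · exact Or.inr ⟨j.succ, (ty_tu hS hK p T _ _ _).2 rfl⟩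
  ee a b ha hb := by
    obtain ⟨a, rfl⟩ := (ty_zero hS hK p T _).1 ha
    obtain ⟨b, rfl⟩ := (ty_zero hS hK p T _).1 hb
    exact id
  ex j d hd := by
    have h4 : ∀ i, ∃ a, d i = el a := fun i => (ty_zero hS hK p T _).1 (hd i)
    choose y hy using h4
    exact ⟨tu y j, (cw_iff hS hK p T _ _ _).2 ⟨y, rfl, funext hy⟩⟩
  co j w hw := by
    obtain ⟨x, rfl⟩ := (ty_succ hS hK p T _ _).1 hw
    exact ⟨_, (cw_iff hS hK p T _ _ _).2 ⟨x, rfl, rfl⟩⟩
  un j w w' d h h' := by
    obtain ⟨x, rfl, h1⟩ := (cw_iff hS hK p T _ _ _).1 h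
    obtain ⟨x', rfl, h2⟩ := (cw_iff hS hK p T _ _ _).1 h'
    rw [h1] at h2
    have : x = x' := funext fun i => el_inj (congrFun h2 i)
    rw [this]
  ud j w d d' h h' := by
    obtain ⟨x, rfl, h1⟩ := (cw_iff hS hK p T _ _ _).1 h
    obtain ⟨x', h3, h2⟩ := (cw_iff hS hK p T _ _ _).1 h'
    intro i
    rw [h1, h2, (tu_inj h3).1]
  cl j j' w w' d d' h h' := by
    obtain ⟨x, rfl, rfl⟩ := (cw_iff hS hK p T _ _ _).1 h
    obtain ⟨x', rfl, rfl⟩ := (cw_iff hS hK p T _ _ _).1 h'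
    show (x = x' ∧ j ≠ j') ↔ _
    constructor
    · rintro ⟨rfl, h1⟩
      exact ⟨fun i => rfl, h1⟩
    · rintro ⟨h1, h2⟩
      exact ⟨funext fun i => el_inj (h1 i), h2⟩
  inn i w d a h ha := by
    obtain ⟨x, rfl, rfl⟩ := (cw_iff hS hK p T _ _ _).1 h
    obtain ⟨b, rfl⟩ := (ty_zero hS hK p T _).1 ha
    show inc hS hK T b x (p (p.symm (.inl i))) ↔ _
    rw [Equiv.apply_symm_apply]
    constructor
    · intro h1
      have h2 : b = x i := h1
      rw [h2]
    · intro h1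
      exact el_inj h1
  pr s w d a h ha h1 := by
    obtain ⟨x, rfl, rfl⟩ := (cw_iff hS hK p T _ _ _).1 h
    obtain ⟨b, rfl⟩ := (ty_zero hS hK p T _).1 ha
    have h2 : inc hS hK T b x (p (p.symm (.inr s))) := h1
    rw [Equiv.apply_symm_apply] at h2
    rw [h2.1]
  dep s w w' d d' h h' h1 h2 := by
    obtain ⟨x, rfl, rfl⟩ := (cw_iff hS hK p T _ _ _).1 h
    obtain ⟨x', rfl, rfl⟩ := (cw_iff hS hK p T _ _ _).1 h'
    have h3 : inc hS hK T (x ⟨0, hK⟩) x (p (p.symm (.inr s))) := h2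
    show inc hS hK T (x' ⟨0, hK⟩) x' (p (p.symm (.inr s)))
    rw [Equiv.apply_symm_apply] at h3 ⊢
    refine ⟨rfl, ?_⟩
    have h4 : (fun j => x' (Fin.castLE (hS s) j)) = fun j => x (Fin.castLE (hS s) j) :=
      funext fun j => (el_inj (h1 j)).symm
    rw [h4]
    exact h3.2

lemma rho_code (hn : 1 ≤ n) (s : S) (v : Fin (ar s) → Fin n) :
    rho hS hK p (adjC hS hK p T) Sum.inl s (fun i => el (v i)) ↔ T s v := by
  constructor
  · rintro ⟨w, d, h, h1, h2⟩
    obtain ⟨x, rfl, rfl⟩ := (cw_iff hS hK p T _ _ _).1 h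
    have h3 : inc hS hK T (x ⟨0, hK⟩) x (p (p.symm (.inr s))) := h2
    rw [Equiv.apply_symm_apply] at h3
    have h4 : (fun j => x (Fin.castLE (hS s) j)) = v := funext fun j => el_inj (h1 j)
    have h5 := h3.2
    rwa [h4] at h5
  · intro h
    obtain ⟨x, hx⟩ := exists_ext ⟨(⟨0, hn⟩ : Fin n)⟩ (hS s) v
    refine ⟨tu x (p.symm (.inr s)), fun i => el (x i), (cw_iff hS hK p T _ _ _).2 ⟨x, rfl, rfl⟩,
      fun j => congrArg (fun a => (el a : CV K q n)) (hx j), ?_⟩
    show inc hS hK T (x ⟨0, hK⟩) x (p (p.symm (.inr s)))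
    rw [Equiv.apply_symm_apply]
    refine ⟨rfl, ?_⟩
    have h4 : (fun j => x (Fin.castLE (hS s) j)) = v := funext hx
    rwa [h4]

/-- the elements of the code -/
noncomputable def elEquiv : Fin n ≃ {x : CV K q n // Ty (adjC hS hK p T) Sum.inl 0 x} :=
  Equiv.ofBijective (fun a => ⟨el a, (ty_el hS hK p T _ _).2 rfl⟩) (by
    constructor
    · intro a b h
      exact el_inj (congrArg Subtype.val h)
    · rintro ⟨x, hx⟩
      obtain ⟨a, rfl⟩ := (ty_zero hS hK p T _).1 hx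
      exact ⟨a, rfl⟩)

theorem relP_code (hn : 1 ≤ n)
    {P : ∀ (M : Type), Interp S ar M → (Empty → M) → Prop} (hP : FD S ar Empty P) :
    P {x : CV K q n // Ty (adjC hS hK p T) Sum.inl 0 x}
      (fun s v => rho hS hK p (adjC hS hK p T) Sum.inl s (fun i => (v i).1)) Empty.elim ↔
      P (Fin n) T Empty.elim := by
  rw [hP.transport (elEquiv hS hK p T) T Empty.elim]
  have h1 : (fun s (w : Fin (ar s) → {x : CV K q n // Ty (adjC hS hK p T) Sum.inl 0 x}) =>
      T s ((elEquiv hS hK p T).symm ∘ w)) =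
      (fun s v => rho hS hK p (adjC hS hK p T) Sum.inl s (fun i => (v i).1)) := by
    funext s w
    apply propext
    rw [← rho_code hS hK p T hn s ((elEquiv hS hK p T).symm ∘ w)]
    have : (fun j => (el (((elEquiv hS hK p T).symm ∘ w) j) : CV K q n)) =
        (fun i => (w i).1) := by
      funext j
      have h2 : ((elEquiv hS hK p T) ((elEquiv hS hK p T).symm (w j))).1 = (w j).1 := by
        rw [Equiv.apply_symm_apply]
      exact h2
    rw [this]
  rw [h1]
  have h3 : (⇑(elEquiv hS hK p T) ∘ Empty.elim :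
      Empty → {x : CV K q n // Ty (adjC hS hK p T) Sum.inl 0 x}) = Empty.elim :=
    Subsingleton.elim _ _
  rw [h3]

end Pool.Agent.Helper14.GC
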