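import Pool.Agent.Helper14.GC.Defs
import Pool.Agent.Helper38.DG.NumM

/-!
# Rigidity of the code
-/

set_option autoImplicit false

namespace Pool.Agent.Helper14.GC

open FirstOrder FirstOrder.Language Pool.Agent.Helper20.Spectra Pool.Agent.Helper38.DG

variable {S : Type} {ar : S → ℕ} {K q n : ℕ} (hS : ∀ s, ar s ≤ K) (hK : 1 ≤ K)
  (p : Fin q ≃ Fin K ⊕ S)

lemma adjC_symm (T : Interp S ar (Fin n)) (u v : CV K q n) (h : adjC hS hK p T u v) :
    adjC hS hK p T v u := by
  rcases u with i | a | ⟨x, j⟩ <;> rcases v with i' | a' | ⟨x', j'⟩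
  · exact h
  · exact h
  · exact h
  · exact h
  · exact h
  · exact h
  · exact h
  · exact h
  · exact ⟨h.1.symm, h.2.symm⟩

lemma adjC_irrefl (T : Interp S ar (Fin n)) (u : CV K q n) : ¬ adjC hS hK p T u u := by
  rcases u with i | a | ⟨x, j⟩
  · exact id
  · exact id
  · exact fun h => h.2 rfl

/-- extension of tuples -/
lemma exists_ext {A : Type} (hA : Nonempty A) {k : ℕ} (h : k ≤ K) (v : Fin k → A) :
    ∃ w : Fin K → A, ∀ j, w (Fin.castLE h j) = v j := by
  obtain ⟨a⟩ := hA
  refine ⟨fun i => if hi : i.1 < k then v ⟨i.1, hi⟩ else a, fun j => ?_⟩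
  simp

lemma const_le (hn : 1 ≤ n) (T : Interp S ar (Fin n)) (i j : Fin (q + 1)) :
    i ≤ j ↔ ∀ v, adjC hS hK p T (.inl j) v → adjC hS hK p T (.inl i) v := by
  constructor
  · rintro h (k | a | ⟨x, k⟩) hv
    · exact hv
    · have hv' : j = 0 := hv
      show i = 0
      rw [hv'] at h
      exact Fin.le_zero_iff.1 h
    · exact h.trans hv
  · intro h
    refine Fin.cases (motive := fun j => (∀ v, adjC hS hK p T (.inl j) v →
      adjC hS hK p T (.inl i) v) → i ≤ j) ?_ ?_ j h
    · intro h
      have : i = 0 := h (.inr (.inl ⟨0, hn⟩)) rfl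
      rw [this]
    · intro k h
      exact h (.inr (.inr (fun _ => ⟨0, hn⟩, k))) (le_refl k.succ)

lemma nn_zero (T : Interp S ar (Fin n)) :
    {u : CV K q n | ¬ adjC hS hK p T (.inl 0) u}.ncard = q + 1 := by
  have h1 : {u : CV K q n | ¬ adjC hS hK p T (.inl 0) u} = Set.range Sum.inl := by
    ext u
    rcases u with i | a | ⟨x, j⟩
    · simp [adjC]
    · simp [adjC]
    · simp [adjC]
  rw [h1, ← Set.image_univ, Set.ncard_image_of_injective _ Sum.inl_injective, Set.ncard_univ,
    Nat.card_eq_fintype_card, Fintype.card_fin]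

lemma nn_ge (T : Interp S ar (Fin n)) (v : CV K q n) (hv : v ≠ .inl 0) :
    n ≤ {u : CV K q n | ¬ adjC hS hK p T v u}.ncard := by
  have key : ∀ f : Fin n → CV K q n, Function.Injective f → (∀ a, ¬ adjC hS hK p T v (f a)) →
      n ≤ {u : CV K q n | ¬ adjC hS hK p T v u}.ncard := by
    intro f hf h
    calc n = (Set.range f).ncard := by
          rw [← Set.image_univ, Set.ncard_image_of_injective _ hf, Set.ncard_univ,
            Nat.card_eq_fintype_card, Fintype.card_fin]
      _ ≤ _ := Set.ncard_le_ncard (by rintro _ ⟨a, rfl⟩; exact h a) (Set.toFinite _)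
  rcases v with i | a | ⟨x, j⟩
  · refine key (fun a => .inr (.inl a)) ?_ ?_
    · intro a b h
      simpa using h
    · intro a h
      have : i = 0 := h
      exact hv (by rw [this])
  · refine key (fun a => .inr (.inl a)) ?_ ?_
    · intro a b h
      simpa using h
    · intro a h
      exact h
  · refine key (fun a => .inr (.inr (fun _ => a, j))) ?_ ?_
    · intro a b h
      have h1 : (fun _ => a : Fin K → Fin n) = fun _ => b := by simpa using h
      exact congrFun h1 ⟨0, hK⟩
    · intro a h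
      exact h.2 rfl

/-- the code of a map of elements -/
def mapC (σ : Fin n → Fin n) : CV K q n → CV K q n
  | .inl i => .inl i
  | .inr (.inl a) => .inr (.inl (σ a))
  | .inr (.inr (x, j)) => .inr (.inr (fun i => σ (x i), j))

theorem rigid (hn : q + 2 ≤ n) (T T' : Interp S ar (Fin n)) (π : CV K q n ≃ CV K q n)
    (h : ∀ u v, adjC hS hK p T u v ↔ adjC hS hK p T' (π u) (π v)) :
    ∃ σ : Equiv.Perm (Fin n), (∀ u, π u = mapC σ u) ∧
      T = fun s v => T' s (fun i => σ (v i)) := by
  have hn1 : 1 ≤ n := by omega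
  have hnn : ∀ v, {u : CV K q n | ¬ adjC hS hK p T' (π v) u}.ncard =
      {u : CV K q n | ¬ adjC hS hK p T v u}.ncard := by
    intro v
    have h1 : {u : CV K q n | ¬ adjC hS hK p T' (π v) u} =
        π '' {u : CV K q n | ¬ adjC hS hK p T v u} := by
      ext u
      constructor
      · intro hu
        refine ⟨π.symm u, ?_, by simp⟩
        intro h2
        rw [h, Equiv.apply_symm_apply] at h2
        exact hu h2
      · rintro ⟨u, hu, rfl⟩ h2
        exact hu ((h _ _).2 h2)
    rw [h1, Set.ncard_image_of_injective _ π.injective]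
  have h0 : π (.inl 0) = .inl 0 := by
    by_contra h1
    have h2 := nn_ge hS hK p T' _ h1
    rw [hnn, nn_zero] at h2
    omega
  have hc : ∀ i, ∃ j, π (.inl i) = .inl j := by
    intro i
    have h1 := h (.inl 0) (.inl i)
    rw [h0] at h1
    rcases h2 : π (.inl i) with j | a | ⟨x, j⟩
    · exact ⟨j, rfl⟩
    · rw [h2] at h1
      exact absurd (h1.2 (rfl : (0 : Fin (q + 1)) = 0)) id
    · rw [h2] at h1
      exact absurd (h1.2 (Fin.zero_le _)) id
  choose τ hτ using hc
  have hτi : Function.Injective τ := by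
    intro i j hij
    have h1 : π (.inl i) = π (.inl j) := by rw [hτ, hτ, hij]
    simpa using π.injective h1
  have hτm : ∀ i j, τ i ≤ τ j ↔ i ≤ j := by
    intro i j
    rw [const_le hS hK p hn1 T', const_le hS hK p hn1 T]
    constructor
    · intro h1 v hv
      rw [h, hτ] at hv ⊢
      exact h1 _ hv
    · intro h1 w hw
      have h2 := h1 (π.symm w)
      rw [h, h, hτ, hτ, Equiv.apply_symm_apply] at h2
      exact h2 hw
  have hτ1 : ∀ i, τ i = i := by
    have h1 := perm_eq_one (Equiv.ofBijective τ (Finite.injective_iff_bijective.1 hτi))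
      (fun x y => by
        rw [← not_le, ← not_le]
        exact not_congr (hτm y x))
    intro i
    exact congrArg (fun e : Equiv.Perm (Fin (q + 1)) => e i) h1
  have hτ' : ∀ i, π (.inl i) = .inl i := fun i => by rw [hτ, hτ1]
  have he : ∀ a, ∃ b, π (.inr (.inl a)) = .inr (.inl b) := by
    intro a
    rcases h2 : π (.inr (.inl a)) with j | b | ⟨y, j⟩
    · rw [← hτ' j] at h2
      exact absurd (π.injective h2) (by simp)
    · exact ⟨b, rfl⟩
    · have h1 := h (.inl j.succ) (.inr (.inl a))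
      rw [h2, hτ'] at h1
      have h3 : j.succ = 0 := h1.2 (le_refl j.succ)
      exact absurd h3 (Fin.succ_ne_zero j)
  have ht : ∀ x j, ∃ y, π (.inr (.inr (x, j))) = .inr (.inr (y, j)) := by
    intro x j
    rcases h2 : π (.inr (.inr (x, j))) with i | b | ⟨y, j'⟩
    · rw [← hτ' i] at h2
      exact absurd (π.injective h2) (by simp)
    · have h1 := h (.inl j.succ) (.inr (.inr (x, j)))
      rw [h2, hτ'] at h1
      have h3 : j.succ = 0 := h1.1 (le_refl j.succ)
      exact absurd h3 (Fin.succ_ne_zero j)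
    · have h1 := h (.inl j.succ) (.inr (.inr (x, j)))
      have h3 := h (.inl j'.succ) (.inr (.inr (x, j)))
      rw [h2, hτ'] at h1 h3
      have h4 : j.succ ≤ j'.succ := h1.1 (le_refl j.succ)
      have h5 : j'.succ ≤ j.succ := h3.2 (le_refl j'.succ)
      have h6 : j = j' := Fin.succ_injective _ (le_antisymm h4 h5)
      rw [h6]
      exact ⟨y, rfl⟩
  choose σ hσ using he
  choose ξ hξ using ht
  have hξ1 : ∀ x j j', ξ x j = ξ x j' := by
    intro x j j'
    by_cases hj : j = j'
    · rw [hj]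
    · have h1 := h (.inr (.inr (x, j))) (.inr (.inr (x, j')))
      rw [hξ, hξ] at h1
      exact (h1.1 ⟨rfl, hj⟩).1
  have hξ2 : ∀ x j i, ξ x j i = σ (x i) := by
    intro x j i
    rw [hξ1 x j (p.symm (.inl i))]
    have h1 := h (.inr (.inl (x i))) (.inr (.inr (x, p.symm (.inl i))))
    rw [hσ, hξ] at h1
    have h2 : inc hS hK T (x i) x (p (p.symm (.inl i))) := by
      rw [Equiv.apply_symm_apply]
      exact rfl
    have h3 : inc hS hK T' (σ (x i)) (ξ x (p.symm (.inl i))) (p (p.symm (.inl i))) := h1.1 h2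
    rw [Equiv.apply_symm_apply] at h3
    exact h3.symm
  have hσi : Function.Injective σ := by
    intro a b hab
    have h1 : π (.inr (.inl a)) = π (.inr (.inl b)) := by rw [hσ, hσ, hab]
    simpa using π.injective h1
  refine ⟨Equiv.ofBijective σ (Finite.injective_iff_bijective.1 hσi), ?_, ?_⟩
  · rintro (i | a | ⟨x, j⟩)
    · exact hτ' i
    · exact hσ a
    · rw [hξ]
      have : ξ x j = fun i => σ (x i) := funext fun i => hξ2 x j i
      rw [this]
      rfl
  · funext s v
    apply propext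
    obtain ⟨x, hx⟩ := exists_ext ⟨(⟨0, hn1⟩ : Fin n)⟩ (hS s) v
    have h1 := h (.inr (.inl (x ⟨0, hK⟩))) (.inr (.inr (x, p.symm (.inr s))))
    rw [hσ, hξ] at h1
    have h2 : inc hS hK T (x ⟨0, hK⟩) x (p (p.symm (.inr s))) ↔
      inc hS hK T' (σ (x ⟨0, hK⟩)) (ξ x (p.symm (.inr s))) (p (p.symm (.inr s))) := h1
    rw [Equiv.apply_symm_apply] at h2
    have h3 : (fun j => x (Fin.castLE (hS s) j)) = v := funext hx
    have h4 : (fun j => ξ x (p.symm (.inr s)) (Fin.castLE (hS s) j)) = fun i => σ (v i) := by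
      funext j
      rw [hξ2, hx]
    have h5 : (x ⟨0, hK⟩ = x ⟨0, hK⟩ ∧ T s (fun j => x (Fin.castLE (hS s) j))) ↔
      (σ (x ⟨0, hK⟩) = ξ x (p.symm (.inr s)) ⟨0, hK⟩ ∧
        T' s (fun j => ξ x (p.symm (.inr s)) (Fin.castLE (hS s) j))) := h2
    rw [h3, h4, hξ2] at h5
    simpa using h5

end Pool.Agent.Helper14.GC
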